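import Pool.Agent.Helper82.CKM.Merge

/-!
# Near convexity of the optimum as a function of the number of facilities
-/

set_option autoImplicit false

namespace Pool.Agent.Helper82.CKM

lemma numeric {m Δ c1 c2 X : ℝ} (h0 : 0 ≤ Δ) (h1 : Δ ≤ m) (hm : 0 < m) (hc1 : 0 ≤ c1)
    (hc2 : 0 ≤ c2) (hA : X ≤ c1) (hB : (m + Δ) * X ≤ (m + Δ) * c2 + 2 * Δ * (c1 + c2)) :
    m * X ≤ 2 * (Δ * c1 + (m - Δ) * c2) := by
  have hd : 0 ≤ m - Δ := by linarith
  rcases le_or_gt m (2 * Δ) with h2 | h2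
  · have e1 : m * X ≤ m * c1 := mul_le_mul_of_nonneg_left hA hm.le
    have e2 : m * c1 ≤ 2 * Δ * c1 := mul_le_mul_of_nonneg_right h2 hc1
    have e3 : 0 ≤ (m - Δ) * c2 := mul_nonneg hd hc2
    linarith
  · rcases le_or_gt 0 (m ^ 2 - 3 * m * Δ - 2 * Δ ^ 2) with h3 | h3
    · have hpos : 0 < m + Δ := by linarith
      have e1 : m * ((m + Δ) * X) ≤ m * ((m + Δ) * c2 + 2 * Δ * (c1 + c2)) :=
        mul_le_mul_of_nonneg_left hB hm.le
      have e2 : 0 ≤ (m ^ 2 - 3 * m * Δ - 2 * Δ ^ 2) * c2 := mul_nonneg h3 hc2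
      have e3 : 0 ≤ 2 * Δ ^ 2 * c1 := by positivity
      have e4 : (m + Δ) * (m * X) ≤ (m + Δ) * (2 * (Δ * c1 + (m - Δ) * c2)) := by nlinarith
      exact le_of_mul_le_mul_left e4 hpos
    · have hpos : 0 < m + 3 * Δ := by linarith
      have e1 : (-(m ^ 2 - 3 * m * Δ - 2 * Δ ^ 2)) * X ≤ (-(m ^ 2 - 3 * m * Δ - 2 * Δ ^ 2)) * c1 :=
        mul_le_mul_of_nonneg_left hA (by linarith)
      have e2 : 2 * (m - Δ) * ((m + Δ) * X) ≤
          2 * (m - Δ) * ((m + Δ) * c2 + 2 * Δ * (c1 + c2)) :=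
        mul_le_mul_of_nonneg_left hB (by linarith)
      have e3 : 0 ≤ (m ^ 2 - 5 * m * Δ + 8 * Δ ^ 2) * c1 := by
        refine mul_nonneg ?_ hc1
        nlinarith [sq_nonneg (2 * m - 5 * Δ), sq_nonneg Δ]
      have e4 : (m + 3 * Δ) * (m * X) ≤ (m + 3 * Δ) * (2 * (Δ * c1 + (m - Δ) * c2)) := by
        nlinarith
      exact le_of_mul_le_mul_left e4 hpos

lemma cost_nonneg {I : Inst} (s : Sol I) : 0 ≤ s.cost :=
  Finset.sum_nonneg fun _ _ => I.nonneg _ _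

open Classical in
lemma convex_exact {I : Inst} (s1 s2 : Sol I) {k : ℕ} (h1 : s1.size ≤ k) (h2 : k < s2.size) :
    ∃ s : Sol I, s.S ⊆ s1.S ∪ s2.S ∧ s.size ≤ k ∧
      ((s2.size : ℝ) - s1.size) * s.cost ≤
        2 * (((s2.size : ℝ) - k) * s1.cost + ((k : ℝ) - s1.size) * s2.cost) := by
  obtain ⟨m, hm⟩ := Nat.exists_eq_add_of_le (h1.trans h2.le)
  obtain ⟨d, hd⟩ := Nat.exists_eq_add_of_le h2.le
  have hdm : d ≤ m := by omega
  have hm0 : 0 < m := by omega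
  obtain ⟨s, hsS, hsd, hsc⟩ := merge s1 s2 hm hdm
  have e1 : (s2.size : ℝ) = s1.size + m := by exact_mod_cast hm
  have e2 : (s2.size : ℝ) = k + d := by exact_mod_cast hd
  have a1 : (s2.size : ℝ) - s1.size = m := by linarith
  have a2 : (s2.size : ℝ) - k = d := by linarith
  have a3 : (k : ℝ) - s1.size = m - d := by linarith
  rw [a1, a2, a3]
  have n1 : (0 : ℝ) ≤ d := Nat.cast_nonneg d
  have n2 : (d : ℝ) ≤ m := by exact_mod_cast hdm
  have n3 : (0 : ℝ) < m := by exact_mod_cast hm0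
  rcases le_total s.cost s1.cost with hle | hle
  · exact ⟨s, hsS, by omega, numeric n1 n2 n3 (cost_nonneg _) (cost_nonneg _) hle hsc⟩
  · refine ⟨s1, Finset.subset_union_left, h1, numeric n1 n2 n3 (cost_nonneg _) (cost_nonneg _)
      (le_refl _) ?_⟩
    refine le_trans ?_ hsc
    exact mul_le_mul_of_nonneg_left hle (by linarith)

open Classical in
/-- **Near convexity.** -/
theorem near_convex {I : Inst} (s1 s2 : Sol I) {k1 k k2 : ℕ} (h1 : s1.size ≤ k1) (h1k : k1 ≤ k)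
    (hk2 : k ≤ k2) (h12 : k1 < k2) (h2 : s2.size ≤ k2) :
    ∃ s : Sol I, s.S ⊆ s1.S ∪ s2.S ∧ s.size ≤ k ∧
      ((k2 : ℝ) - k1) * s.cost ≤
        2 * (((k2 : ℝ) - k) * s1.cost + ((k : ℝ) - k1) * s2.cost) := by
  have r1 : (k1 : ℝ) ≤ k := by exact_mod_cast h1k
  have r2 : (k : ℝ) ≤ k2 := by exact_mod_cast hk2
  have r12 : (k1 : ℝ) < k2 := by exact_mod_cast h12
  have c1 := cost_nonneg s1
  have c2 := cost_nonneg s2
  have hlow : ∀ Y : ℝ, Y ≤ s1.cost → Y ≤ s2.cost →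
      ((k2 : ℝ) - k1) * Y ≤ 2 * (((k2 : ℝ) - k) * s1.cost + ((k : ℝ) - k1) * s2.cost) := by
    intro Y y1 y2
    have e1 : ((k2 : ℝ) - k) * Y ≤ ((k2 : ℝ) - k) * s1.cost :=
      mul_le_mul_of_nonneg_left y1 (by linarith)
    have e2 : ((k : ℝ) - k1) * Y ≤ ((k : ℝ) - k1) * s2.cost :=
      mul_le_mul_of_nonneg_left y2 (by linarith)
    have e3 : 0 ≤ ((k2 : ℝ) - k) * s1.cost := mul_nonneg (by linarith) c1
    have e4 : 0 ≤ ((k : ℝ) - k1) * s2.cost := mul_nonneg (by linarith) c2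
    linarith
  rcases le_total s1.cost s2.cost with hc | hc
  · exact ⟨s1, Finset.subset_union_left, h1.trans h1k, hlow _ (le_refl _) hc⟩
  rcases le_or_gt s2.size k with hs | hs
  · exact ⟨s2, Finset.subset_union_right, hs, hlow _ hc (le_refl _)⟩
  obtain ⟨s, hsS, hsk, hsc⟩ := convex_exact s1 s2 (h1.trans h1k) hs
  refine ⟨s, hsS, hsk, ?_⟩
  have q1 : (s1.size : ℝ) ≤ k1 := by exact_mod_cast h1
  have q2 : (s2.size : ℝ) ≤ k2 := by exact_mod_cast h2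
  have q3 : (k : ℝ) < s2.size := by exact_mod_cast hs
  generalize (s1.size : ℝ) = a at hsc q1
  generalize (s2.size : ℝ) = b at hsc q2 q3
  have hba : 0 < b - a := by linarith
  -- `(b - k) / (b - a) ≤ (k2 - k) / (k2 - k1)`
  have hw : (b - k) * ((k2 : ℝ) - k1) ≤ ((k2 : ℝ) - k) * (b - a) := by nlinarith
  have e1 : (b - a) * (((k2 : ℝ) - k1) * s.cost) ≤
      ((k2 : ℝ) - k1) * (2 * ((b - k) * s1.cost + ((k : ℝ) - a) * s2.cost)) := by
    have := mul_le_mul_of_nonneg_left hsc (show (0 : ℝ) ≤ (k2 : ℝ) - k1 by linarith)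
    linarith
  have e2 : ((k2 : ℝ) - k1) * (2 * ((b - k) * s1.cost + ((k : ℝ) - a) * s2.cost)) ≤
      (b - a) * (2 * (((k2 : ℝ) - k) * s1.cost + ((k : ℝ) - k1) * s2.cost)) := by
    have h5 : 0 ≤ (((k2 : ℝ) - k) * (b - a) - (b - k) * ((k2 : ℝ) - k1)) * (s1.cost - s2.cost) :=
      mul_nonneg (by linarith) (by linarith)
    nlinarith
  exact le_of_mul_le_mul_left (e1.trans e2) hba

end Pool.Agent.Helper82.CKM
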