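import Mathlib

/-!
# Capacitated k-median: instances, solutions, cost
-/

set_option autoImplicit false

namespace Pool.Agent.Helper82.CKM

/-- An instance of capacitated median: finite sets `F` (facilities) and `D` (clients), a
pseudometric on their disjoint union, and arbitrary integer capacities. -/
structure Inst where
  /-- the facilities -/
  F : Type
  /-- the clients -/
  D : Type
  /-- finitely many facilities -/
  fF : Fintype F
  /-- finitely many clients -/
  fD : Fintype D
  /-- the distance -/
  d : F ⊕ D → F ⊕ D → ℝ
  /-- distances are nonnegative -/
  nonneg : ∀ x y, 0 ≤ d x y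
  /-- `d x x = 0` -/
  self : ∀ x, d x x = 0
  /-- symmetry -/
  symm : ∀ x y, d x y = d y x
  /-- the triangle inequality -/
  tri : ∀ x y z, d x z ≤ d x y + d y z
  /-- the capacities -/
  U : F → ℕ

instance (I : Inst) : Fintype I.F := I.fF

instance (I : Inst) : Fintype I.D := I.fD

open Classical in
/-- A solution: a set `S` of open facilities and an assignment `σ` of the clients to open
facilities that respects the capacities exactly. -/
structure Sol (I : Inst) where
  /-- the open facilities -/
  S : Finset I.F
  /-- the assignment -/
  σ : I.D → I.F
  /-- every client is assigned to an open facility -/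
  mem : ∀ j, σ j ∈ S
  /-- the capacities are respected -/
  cap : ∀ i ∈ S, (Finset.univ.filter fun j => σ j = i).card ≤ I.U i

/-- The cost of a solution: the sum of the distances of the clients to their facilities. -/
noncomputable def Sol.cost {I : Inst} (s : Sol I) : ℝ :=
  ∑ j, I.d (Sum.inr j) (Sum.inl (s.σ j))

/-- The number of open facilities. -/
def Sol.size {I : Inst} (s : Sol I) : ℕ := s.S.card

end Pool.Agent.Helper82.CKM
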