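import Mathlib

/-!
# The forest lemma

A finite set `E` of pairs is sparse if it has fewer elements than end points, hereditarily (the
bipartite graph is a forest).
-/

set_option autoImplicit false

namespace Pool.Agent.Helper82.CKM

open Classical in
/-- hereditarily fewer edges than vertices: the bipartite graph is a forest -/
def Sparse {α β : Type} (E : Finset (α × β)) : Prop :=
  ∀ E' ⊆ E, E'.Nonempty → E'.card < (E'.image Prod.fst).card + (E'.image Prod.snd).card

open Classical in
/-- neighbours of `Z` in `H` -/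
noncomputable def nb {α β : Type} (E : Finset (α × β)) (H : Finset β) (Z : Finset α) : Finset β :=
  H.filter fun h => ∃ p ∈ Z, (p, h) ∈ E

open Classical in
/-- neighbours of `h` in `P` -/
noncomputable def bn {α β : Type} (E : Finset (α × β)) (P : Finset α) (h : β) : Finset α :=
  P.filter fun p => (p, h) ∈ E

section

variable {α β : Type} (E : Finset (α × β))

open Classical in
lemma mem_nb {H : Finset β} {Z : Finset α} {h : β} :
    h ∈ nb E H Z ↔ h ∈ H ∧ ∃ p ∈ Z, (p, h) ∈ E := by
  simp [nb]

open Classical in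
lemma mem_bn {P : Finset α} {h : β} {p : α} : p ∈ bn E P h ↔ p ∈ P ∧ (p, h) ∈ E := by
  simp [bn]

open Classical in
/-- the five cases -/
lemma forest_cases (hE : Sparse E) (P : Finset α) (H : Finset β) (hP : P.Nonempty) :
    (∃ p ∈ P, nb E H {p} = ∅) ∨ (∃ h ∈ H, bn E P h = ∅) ∨
    (∃ h ∈ H, ∃ p ∈ P, bn E P h = {p}) ∨
    (∃ h ∈ H, ∃ p ∈ P, ∃ p' ∈ P, p ≠ p' ∧ nb E H {p} = {h} ∧ nb E H {p'} = {h}) ∨
    (∃ h ∈ H, ∃ p ∈ P, ∃ p' ∈ P, p ≠ p' ∧ nb E H {p} = {h} ∧ bn E P h = {p, p'}) := by
  by_contra hcon
  push Not at hcon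
  obtain ⟨h1, h2, h3, h4, h5⟩ := hcon
  -- every `p` has a neighbour
  set P2 : Finset α := P.filter fun p => 2 ≤ (nb E H {p}).card with hP2
  have hleaf : ∀ h ∈ H, ∀ p ∈ bn E P h, p ∉ P2 → nb E H {p} = {h} := by
    intro h hh p hp hp2
    rw [mem_bn] at hp
    have hmem : h ∈ nb E H {p} := (mem_nb E).2 ⟨hh, p, Finset.mem_singleton_self p, hp.2⟩
    have hc : (nb E H {p}).card ≤ 1 := by
      by_contra hlt
      exact hp2 (Finset.mem_filter.2 ⟨hp.1, by omega⟩)
    rw [Finset.card_le_one] at hc
    ext h'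
    rw [Finset.mem_singleton]
    exact ⟨fun hx => hc _ hx _ hmem, fun hx => by rw [hx]; exact hmem⟩
  -- every `h` has at least two neighbours
  have hdeg : ∀ h ∈ H, 2 ≤ (bn E P h).card := by
    intro h hh
    by_contra hlt
    have hle : (bn E P h).card ≤ 1 := by omega
    rcases Nat.eq_zero_or_pos (bn E P h).card with h0 | h0
    · exact (h2 h hh).ne_empty (Finset.card_eq_zero.1 h0)
    · obtain ⟨p, hp⟩ := Finset.card_eq_one.1 (show (bn E P h).card = 1 by omega)
      have : p ∈ bn E P h := by rw [hp]; exact Finset.mem_singleton_self p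
      exact h3 h hh p ((mem_bn E).1 this).1 hp
  -- every `h` has at least two neighbours in `P2`
  have hdeg2 : ∀ h ∈ H, 2 ≤ (bn E P2 h).card := by
    intro h hh
    have hsub : bn E P2 h ⊆ bn E P h := by
      intro p hp
      rw [mem_bn] at hp ⊢
      exact ⟨(Finset.mem_filter.1 hp.1).1, hp.2⟩
    have hdiff : (bn E P h \ bn E P2 h).card ≤ 1 := by
      by_contra hlt
      obtain ⟨p, hp, p', hp', hne⟩ := Finset.one_lt_card.1
        (show 1 < (bn E P h \ bn E P2 h).card by omega)
      rw [Finset.mem_sdiff] at hp hp'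
      have k1 : p ∉ P2 := fun hc => hp.2 ((mem_bn E).2 ⟨hc, ((mem_bn E).1 hp.1).2⟩)
      have k2 : p' ∉ P2 := fun hc => hp'.2 ((mem_bn E).2 ⟨hc, ((mem_bn E).1 hp'.1).2⟩)
      exact h4 h hh p ((mem_bn E).1 hp.1).1 p' ((mem_bn E).1 hp'.1).1 hne
        (hleaf h hh p hp.1 k1) (hleaf h hh p' hp'.1 k2)
    by_contra hlt
    have hc := Finset.card_sdiff_add_card_eq_card hsub
    have h7 := hdeg h hh
    -- exactly one leaf and exactly one other neighbour
    have hd1 : (bn E P h \ bn E P2 h).card = 1 := by omega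
    have hd2 : (bn E P2 h).card = 1 := by omega
    obtain ⟨p, hp⟩ := Finset.card_eq_one.1 hd1
    obtain ⟨p', hp'⟩ := Finset.card_eq_one.1 hd2
    have hpm : p ∈ bn E P h \ bn E P2 h := by rw [hp]; exact Finset.mem_singleton_self p
    have hpm' : p' ∈ bn E P2 h := by rw [hp']; exact Finset.mem_singleton_self p'
    rw [Finset.mem_sdiff] at hpm
    have hne : p ≠ p' := by
      rintro rfl
      exact hpm.2 hpm'
    have k1 : p ∉ P2 := fun hc => hpm.2 ((mem_bn E).2 ⟨hc, ((mem_bn E).1 hpm.1).2⟩)
    refine h5 h hh p ((mem_bn E).1 hpm.1).1 p' ((mem_bn E).1 (hsub hpm')).1 hne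
      (hleaf h hh p hpm.1 k1) ?_
    rw [← Finset.sdiff_union_of_subset hsub, hp, hp']
    rfl
  -- count the edges
  set E2 : Finset (α × β) := E.filter fun x => x.1 ∈ P2 ∧ x.2 ∈ H with hE2
  have hcard1 : E2.card = ∑ p ∈ P2, (nb E H {p}).card := by
    rw [Finset.card_eq_sum_card_fiberwise (f := Prod.fst) (t := P2)]
    · refine Finset.sum_congr rfl fun p hp => ?_
      refine Finset.card_bij' (fun x _ => x.2) (fun h _ => (p, h)) ?_ ?_ ?_ ?_
      · intro x hx
        rw [Finset.mem_filter, hE2, Finset.mem_filter] at hx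
        rw [mem_nb]
        refine ⟨hx.1.2.2, p, Finset.mem_singleton_self p, ?_⟩
        rw [← hx.2]
        exact hx.1.1
      · intro h hh
        rw [mem_nb] at hh
        obtain ⟨hh, q, hq, hqh⟩ := hh
        rw [Finset.mem_singleton] at hq
        subst hq
        rw [Finset.mem_filter, hE2, Finset.mem_filter]
        exact ⟨⟨hqh, hp, hh⟩, rfl⟩
      · intro x hx
        rw [Finset.mem_filter] at hx
        rw [← hx.2]
      · intro h hh
        rfl
    · intro x hx
      exact (Finset.mem_filter.1 hx).2.1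
  have hcard2 : E2.card = ∑ h ∈ H, (bn E P2 h).card := by
    rw [Finset.card_eq_sum_card_fiberwise (f := Prod.snd) (t := H)]
    · refine Finset.sum_congr rfl fun h hh => ?_
      refine Finset.card_bij' (fun x _ => x.1) (fun p _ => (p, h)) ?_ ?_ ?_ ?_
      · intro x hx
        rw [Finset.mem_filter, hE2, Finset.mem_filter] at hx
        rw [mem_bn]
        refine ⟨hx.1.2.1, ?_⟩
        rw [← hx.2]
        exact hx.1.1
      · intro p hp
        rw [mem_bn] at hp
        rw [Finset.mem_filter, hE2, Finset.mem_filter]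
        exact ⟨⟨hp.2, hp.1, hh⟩, rfl⟩
      · intro x hx
        rw [Finset.mem_filter] at hx
        rw [← hx.2]
      · intro p hp
        rfl
    · intro x hx
      exact (Finset.mem_filter.1 hx).2.2
  have hb1 : P2.card * 2 ≤ E2.card := by
    rw [hcard1, ← smul_eq_mul, ← Finset.sum_const]
    exact Finset.sum_le_sum fun p hp => (Finset.mem_filter.1 hp).2
  have hb2 : H.card * 2 ≤ E2.card := by
    rw [hcard2, ← smul_eq_mul, ← Finset.sum_const]
    exact Finset.sum_le_sum fun h hh => hdeg2 h hh
  have hi1 : (E2.image Prod.fst).card ≤ P2.card := by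
    refine Finset.card_le_card fun p hp => ?_
    obtain ⟨x, hx, rfl⟩ := Finset.mem_image.1 hp
    exact (Finset.mem_filter.1 hx).2.1
  have hi2 : (E2.image Prod.snd).card ≤ H.card := by
    refine Finset.card_le_card fun p hp => ?_
    obtain ⟨x, hx, rfl⟩ := Finset.mem_image.1 hp
    exact (Finset.mem_filter.1 hx).2.2
  have hne : E2.Nonempty := by
    obtain ⟨p, hp⟩ := hP
    obtain ⟨h, hh⟩ := h1 p hp
    rw [mem_nb] at hh
    have := hdeg2 h hh.1
    rw [← Finset.card_pos]
    have hpos : 0 < H.card := Finset.card_pos.2 ⟨h, hh.1⟩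
    omega
  have := hE E2 (Finset.filter_subset _ _) hne
  omega

open Classical in
/-- **The forest lemma.** -/
theorem forest (hE : Sparse E) (n : ℕ) : ∀ (P : Finset α) (H : Finset β) (e : α → ℝ) (m d : ℕ),
    P.card + H.card = n → (∀ p, 0 ≤ e p) → P.card = H.card + m → d ≤ m →
    ∃ Z ⊆ P, (nb E H Z).card + d ≤ Z.card ∧
      ((m : ℝ) + d) * ∑ p ∈ Z, e p ≤ 2 * d * ∑ p ∈ P, e p := by
  induction n using Nat.strong_induction_on with
  | _ n ih =>
  intro P H e m d hn he hm hd
  have hEp : ∀ A : Finset α, 0 ≤ ∑ p ∈ A, e p := fun A => Finset.sum_nonneg fun p _ => he p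
  -- the trivial cases
  rcases Nat.eq_zero_or_pos d with rfl | hd0
  · refine ⟨∅, Finset.empty_subset _, ?_, ?_⟩
    · have : nb E H (∅ : Finset α) = ∅ := by
        ext h
        rw [mem_nb]
        simp
      rw [this]
      simp
    · simp
  rcases Nat.eq_or_lt_of_le hd with rfl | hdm
  · refine ⟨P, Finset.Subset.refl _, ?_, ?_⟩
    · have : (nb E H P).card ≤ H.card := Finset.card_le_card (Finset.filter_subset _ _)
      omega
    · have := hEp P
      nlinarith
  have hdR : (1 : ℝ) ≤ d := by exact_mod_cast hd0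
  have hdmR : (d : ℝ) + 1 ≤ m := by exact_mod_cast hdm
  have hPne : P.Nonempty := by
    rw [← Finset.card_pos]
    omega
  have hpc : 1 ≤ P.card := Finset.card_pos.2 hPne
  rcases forest_cases E hE P H hPne with ⟨p, hp, hiso⟩ | ⟨h, hh, hiso⟩ | ⟨h, hh, p, hp, hone⟩ |
    ⟨h, hh, p, hp, p', hp', hpp, hlp, hlp'⟩ | ⟨h, hh, p, hp, p', hp', hpp, hlp, htwo⟩
  · -- an isolated `p`
    have hsplit : ∑ q ∈ P, e q = e p + ∑ q ∈ P.erase p, e q := (Finset.add_sum_erase P e hp).symm
    have hcard : (P.erase p).card = P.card - 1 := Finset.card_erase_of_mem hp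
    by_cases hbig : ∑ q ∈ P, e q ≤ ((m : ℝ) + d) * e p
    · obtain ⟨Z, hZ, hZ1, hZ2⟩ := ih _ (by omega) (P.erase p) H e (m - 1) d rfl he (by omega)
        (by omega)
      refine ⟨Z, hZ.trans (Finset.erase_subset _ _), hZ1, ?_⟩
      rw [Nat.cast_sub (by omega), Nat.cast_one] at hZ2
      have h1 := hEp Z
      have h2 := hEp (P.erase p)
      have h3 := he p
      have hk : (0 : ℝ) < (m : ℝ) - 1 + d := by linarith
      have h4 : ((m : ℝ) + d) * ∑ q ∈ P.erase p, e q ≤ ((m : ℝ) - 1 + d) * ∑ q ∈ P, e q := by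
        rw [hsplit] at hbig ⊢
        nlinarith
      have h5 : ((m : ℝ) - 1 + d) * (((m : ℝ) + d) * ∑ q ∈ Z, e q) ≤
          ((m : ℝ) - 1 + d) * (2 * d * ∑ q ∈ P, e q) := by
        calc ((m : ℝ) - 1 + d) * (((m : ℝ) + d) * ∑ q ∈ Z, e q)
            = ((m : ℝ) + d) * (((m : ℝ) - 1 + d) * ∑ q ∈ Z, e q) := by ring
          _ ≤ ((m : ℝ) + d) * (2 * d * ∑ q ∈ P.erase p, e q) :=
              mul_le_mul_of_nonneg_left hZ2 (by linarith)
          _ = 2 * d * (((m : ℝ) + d) * ∑ q ∈ P.erase p, e q) := by ring
          _ ≤ 2 * d * (((m : ℝ) - 1 + d) * ∑ q ∈ P, e q) :=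
              mul_le_mul_of_nonneg_left h4 (by linarith)
          _ = _ := by ring
      exact le_of_mul_le_mul_left h5 hk
    · push Not at hbig
      have hZp : ∀ Z ⊆ P.erase p, (nb E H Z).card + (d - 1) ≤ Z.card →
          (nb E H (insert p Z)).card + d ≤ (insert p Z).card := by
        intro Z hZ hc
        have hnot : p ∉ Z := fun hc => Finset.notMem_erase p P (hZ hc)
        rw [Finset.card_insert_of_notMem hnot]
        have : nb E H (insert p Z) = nb E H Z := by
          ext h
          rw [mem_nb, mem_nb]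
          constructor
          · rintro ⟨hh, q, hq, hqh⟩
            rcases Finset.mem_insert.1 hq with rfl | hq
            · have : h ∈ nb E H {q} := (mem_nb E).2 ⟨hh, q, Finset.mem_singleton_self q, hqh⟩
              rw [hiso] at this
              exact absurd this (Finset.notMem_empty _)
            · exact ⟨hh, q, hq, hqh⟩
          · rintro ⟨hh, q, hq, hqh⟩
            exact ⟨hh, q, Finset.mem_insert_of_mem hq, hqh⟩
        rw [this]
        omega
      rcases Nat.eq_or_lt_of_le hd0 with h1 | h1
      · -- `d = 1`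
        refine ⟨{p}, Finset.singleton_subset_iff.2 hp, ?_, ?_⟩
        · rw [hiso]
          simp
          omega
        · rw [Finset.sum_singleton]
          have := hEp P
          nlinarith
      · obtain ⟨Z, hZ, hZ1, hZ2⟩ := ih _ (by omega) (P.erase p) H e (m - 1) (d - 1) rfl he
          (by omega) (by omega)
        refine ⟨insert p Z, ?_, hZp Z hZ hZ1, ?_⟩
        · intro q hq
          rcases Finset.mem_insert.1 hq with rfl | hq
          · exact hp
          · exact Finset.erase_subset _ _ (hZ hq)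
        · have hnot : p ∉ Z := fun hc => Finset.notMem_erase p P (hZ hc)
          rw [Finset.sum_insert hnot]
          rw [Nat.cast_sub (by omega), Nat.cast_sub (by omega), Nat.cast_one] at hZ2
          set S := ∑ q ∈ Z, e q with hS
          set T := ∑ q ∈ P, e q with hT
          have hST : ∑ q ∈ P.erase p, e q = T - e p := by rw [hsplit]; ring
          rw [hST] at hZ2
          have hT0 : 0 ≤ T := hEp P
          have h1R : (2 : ℝ) ≤ d := by exact_mod_cast h1
          have hk : (0 : ℝ) < (m : ℝ) + d - 2 := by linarith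
          have h5 : ((m : ℝ) + d - 2) * (((m : ℝ) + d) * (e p + S)) ≤
              ((m : ℝ) + d - 2) * (2 * d * T) := by
            have h6 : ((m : ℝ) + d) * (((m : ℝ) + d - 2) * S) ≤
                ((m : ℝ) + d) * (2 * (d - 1) * (T - e p)) := by
              refine mul_le_mul_of_nonneg_left ?_ (by linarith)
              linarith
            have h7 : ((m : ℝ) - d) * (((m : ℝ) + d) * e p) ≤ ((m : ℝ) - d) * T :=
              mul_le_mul_of_nonneg_left hbig.le (by linarith)
            nlinarith
          exact le_of_mul_le_mul_left h5 hk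
  · -- an isolated `h`
    have hcard : (H.erase h).card = H.card - 1 := Finset.card_erase_of_mem hh
    have hhc : 1 ≤ H.card := Finset.card_pos.2 ⟨h, hh⟩
    obtain ⟨Z, hZ, hZ1, hZ2⟩ := ih _ (by omega) P (H.erase h) e (m + 1) d rfl he (by omega)
      (by omega)
    refine ⟨Z, hZ, ?_, ?_⟩
    · have : nb E H Z = nb E (H.erase h) Z := by
        ext h'
        rw [mem_nb, mem_nb, Finset.mem_erase]
        constructor
        · rintro ⟨h1, q, hq, hqh⟩
          refine ⟨⟨?_, h1⟩, q, hq, hqh⟩
          rintro rfl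
          have : q ∈ bn E P h' := (mem_bn E).2 ⟨hZ hq, hqh⟩
          rw [hiso] at this
          exact absurd this (Finset.notMem_empty _)
        · rintro ⟨h1, h2⟩
          exact ⟨h1.2, h2⟩
      rw [this]
      exact hZ1
    · push_cast at hZ2
      have := hEp Z
      nlinarith
  · -- `h` has exactly one neighbour
    have hsplit : ∑ q ∈ P, e q = e p + ∑ q ∈ P.erase p, e q := (Finset.add_sum_erase P e hp).symm
    have hcard : (P.erase p).card = P.card - 1 := Finset.card_erase_of_mem hp
    have hcard' : (H.erase h).card = H.card - 1 := Finset.card_erase_of_mem hh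
    have hhc : 1 ≤ H.card := Finset.card_pos.2 ⟨h, hh⟩
    obtain ⟨Z, hZ, hZ1, hZ2⟩ := ih _ (by omega) (P.erase p) (H.erase h) e m d rfl he (by omega)
      (by omega)
    refine ⟨Z, hZ.trans (Finset.erase_subset _ _), ?_, ?_⟩
    · have : nb E H Z = nb E (H.erase h) Z := by
        ext h'
        rw [mem_nb, mem_nb, Finset.mem_erase]
        constructor
        · rintro ⟨h1, q, hq, hqh⟩
          refine ⟨⟨?_, h1⟩, q, hq, hqh⟩
          rintro rfl
          have h6 : q ∈ bn E P h' := (mem_bn E).2 ⟨Finset.erase_subset _ _ (hZ hq), hqh⟩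
          rw [hone, Finset.mem_singleton] at h6
          subst h6
          exact Finset.notMem_erase q P (hZ hq)
        · rintro ⟨h1, h2⟩
          exact ⟨h1.2, h2⟩
      rw [this]
      exact hZ1
    · have h3 := he p
      have h4 : 2 * (d : ℝ) * ∑ q ∈ P.erase p, e q ≤ 2 * d * ∑ q ∈ P, e q :=
        mul_le_mul_of_nonneg_left (by rw [hsplit]; linarith) (by linarith)
      exact hZ2.trans h4
  · -- two leaves at `h`
    have key : ∀ q ∈ P, nb E H {q} = {h} → ∑ x ∈ P, e x ≤ ((m : ℝ) + d) * e q →
        ∃ Z ⊆ P, (nb E H Z).card + d ≤ Z.card ∧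
          ((m : ℝ) + d) * ∑ p ∈ Z, e p ≤ 2 * d * ∑ p ∈ P, e p := by
      intro q hq _ hbig
      have hsplit : ∑ x ∈ P, e x = e q + ∑ x ∈ P.erase q, e x :=
        (Finset.add_sum_erase P e hq).symm
      have hcard : (P.erase q).card = P.card - 1 := Finset.card_erase_of_mem hq
      obtain ⟨Z, hZ, hZ1, hZ2⟩ := ih _ (by omega) (P.erase q) H e (m - 1) d rfl he (by omega)
        (by omega)
      refine ⟨Z, hZ.trans (Finset.erase_subset _ _), hZ1, ?_⟩
      rw [Nat.cast_sub (by omega), Nat.cast_one] at hZ2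
      have h1 := hEp Z
      have h2 := hEp (P.erase q)
      have h3 := he q
      have hk : (0 : ℝ) < (m : ℝ) - 1 + d := by linarith
      have h4 : ((m : ℝ) + d) * ∑ x ∈ P.erase q, e x ≤ ((m : ℝ) - 1 + d) * ∑ x ∈ P, e x := by
        rw [hsplit] at hbig ⊢
        nlinarith
      have h5 : ((m : ℝ) - 1 + d) * (((m : ℝ) + d) * ∑ x ∈ Z, e x) ≤
          ((m : ℝ) - 1 + d) * (2 * d * ∑ x ∈ P, e x) := by
        calc ((m : ℝ) - 1 + d) * (((m : ℝ) + d) * ∑ x ∈ Z, e x)
            = ((m : ℝ) + d) * (((m : ℝ) - 1 + d) * ∑ x ∈ Z, e x) := by ring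
          _ ≤ ((m : ℝ) + d) * (2 * d * ∑ x ∈ P.erase q, e x) :=
              mul_le_mul_of_nonneg_left hZ2 (by linarith)
          _ = 2 * d * (((m : ℝ) + d) * ∑ x ∈ P.erase q, e x) := by ring
          _ ≤ 2 * d * (((m : ℝ) - 1 + d) * ∑ x ∈ P, e x) :=
              mul_le_mul_of_nonneg_left h4 (by linarith)
          _ = _ := by ring
      exact le_of_mul_le_mul_left h5 hk
    by_cases hb1 : ∑ x ∈ P, e x ≤ ((m : ℝ) + d) * e p
    · exact key p hp hlp hb1
    by_cases hb2 : ∑ x ∈ P, e x ≤ ((m : ℝ) + d) * e p'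
    · exact key p' hp' hlp' hb2
    push Not at hb1 hb2
    have hpe : p' ∈ P.erase p := Finset.mem_erase.2 ⟨hpp.symm, hp'⟩
    have hsplit : ∑ q ∈ P, e q = e p + (e p' + ∑ q ∈ (P.erase p).erase p', e q) := by
      rw [Finset.add_sum_erase _ e hpe, Finset.add_sum_erase _ e hp]
    have hcard : ((P.erase p).erase p').card = P.card - 2 := by
      rw [Finset.card_erase_of_mem hpe, Finset.card_erase_of_mem hp]
      omega
    have hcard2 : 2 ≤ P.card := by
      have := Finset.card_le_card (show ({p, p'} : Finset α) ⊆ P from by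
        intro x hx
        rcases Finset.mem_insert.1 hx with rfl | hx
        · exact hp
        · rw [Finset.mem_singleton.1 hx]; exact hp')
      rw [Finset.card_pair hpp] at this
      exact this
    have hcard' : (H.erase h).card = H.card - 1 := Finset.card_erase_of_mem hh
    have hhc : 1 ≤ H.card := Finset.card_pos.2 ⟨h, hh⟩
    have hZp : ∀ Z ⊆ (P.erase p).erase p', (nb E (H.erase h) Z).card + (d - 1) ≤ Z.card →
        (nb E H (insert p (insert p' Z))).card + d ≤ (insert p (insert p' Z)).card := by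
      intro Z hZ hc
      have hnot' : p' ∉ Z := fun hc => Finset.notMem_erase p' _ (hZ hc)
      have hnot : p ∉ insert p' Z := by
        intro hc
        rcases Finset.mem_insert.1 hc with h0 | h0
        · exact hpp h0
        · exact Finset.notMem_erase p P (Finset.erase_subset _ _ (hZ h0))
      rw [Finset.card_insert_of_notMem hnot, Finset.card_insert_of_notMem hnot']
      have : nb E H (insert p (insert p' Z)) ⊆ insert h (nb E (H.erase h) Z) := by
        intro h' hh'
        rw [mem_nb] at hh'
        obtain ⟨h1, q, hq, hqh⟩ := hh'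
        rw [Finset.mem_insert]
        by_cases h0 : h' = h
        · exact Or.inl h0
        right
        rcases Finset.mem_insert.1 hq with rfl | hq
        · have : h' ∈ nb E H {q} := (mem_nb E).2 ⟨h1, q, Finset.mem_singleton_self q, hqh⟩
          rw [hlp, Finset.mem_singleton] at this
          exact absurd this h0
        rcases Finset.mem_insert.1 hq with rfl | hq
        · have : h' ∈ nb E H {q} := (mem_nb E).2 ⟨h1, q, Finset.mem_singleton_self q, hqh⟩
          rw [hlp', Finset.mem_singleton] at this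
          exact absurd this h0
        · exact (mem_nb E).2 ⟨Finset.mem_erase.2 ⟨h0, h1⟩, q, hq, hqh⟩
      have h2 := Finset.card_le_card this
      have h3 := Finset.card_insert_le h (nb E (H.erase h) Z)
      omega
    have hsub : ∀ Z ⊆ (P.erase p).erase p', insert p (insert p' Z) ⊆ P := by
      intro Z hZ q hq
      rcases Finset.mem_insert.1 hq with rfl | hq
      · exact hp
      rcases Finset.mem_insert.1 hq with rfl | hq
      · exact hp'
      · exact Finset.erase_subset _ _ (Finset.erase_subset _ _ (hZ hq))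
    have hsum : ∀ Z ⊆ (P.erase p).erase p',
        ∑ x ∈ insert p (insert p' Z), e x = e p + (e p' + ∑ x ∈ Z, e x) := by
      intro Z hZ
      have hnot' : p' ∉ Z := fun hc => Finset.notMem_erase p' _ (hZ hc)
      have hnot : p ∉ insert p' Z := by
        intro hc
        rcases Finset.mem_insert.1 hc with h0 | h0
        · exact hpp h0
        · exact Finset.notMem_erase p P (Finset.erase_subset _ _ (hZ h0))
      rw [Finset.sum_insert hnot, Finset.sum_insert hnot']
    have hT0 : 0 ≤ ∑ q ∈ P, e q := hEp P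
    rcases Nat.eq_or_lt_of_le hd0 with h1 | h1
    · -- `d = 1`
      have hempty : nb E (H.erase h) (∅ : Finset α) = ∅ := by
        ext h
        rw [mem_nb]
        simp
      have h2 := hZp ∅ (Finset.empty_subset _) (by rw [hempty]; simp; omega)
      have h3 := hsub ∅ (Finset.empty_subset _)
      have h4 := hsum ∅ (Finset.empty_subset _)
      refine ⟨_, h3, h2, ?_⟩
      rw [h4, Finset.sum_empty]
      have hd1 : (d : ℝ) = 1 := by rw [← h1]; simp
      rw [hd1] at hb1 hb2 ⊢
      linarith
    · obtain ⟨Z, hZ, hZ1, hZ2⟩ := ih _ (by omega) ((P.erase p).erase p') (H.erase h) e (m - 1)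
        (d - 1) rfl he (by omega) (by omega)
      refine ⟨_, hsub Z hZ, hZp Z hZ hZ1, ?_⟩
      rw [hsum Z hZ]
      rw [Nat.cast_sub (by omega), Nat.cast_sub (by omega), Nat.cast_one] at hZ2
      set S := ∑ q ∈ Z, e q with hS
      set T := ∑ q ∈ P, e q with hT
      have hST : ∑ q ∈ (P.erase p).erase p', e q = T - (e p + e p') := by rw [hsplit]; ring
      rw [hST] at hZ2
      have h1R : (2 : ℝ) ≤ d := by exact_mod_cast h1
      have hk : (0 : ℝ) < (m : ℝ) + d - 2 := by linarith
      have h5 : ((m : ℝ) + d - 2) * (((m : ℝ) + d) * (e p + (e p' + S))) ≤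
          ((m : ℝ) + d - 2) * (2 * d * T) := by
        have h6 : ((m : ℝ) + d) * (((m : ℝ) + d - 2) * S) ≤
            ((m : ℝ) + d) * (2 * (d - 1) * (T - (e p + e p'))) := by
          refine mul_le_mul_of_nonneg_left ?_ (by linarith)
          linarith
        have h7 : ((m : ℝ) - d) * (((m : ℝ) + d) * (e p + e p')) ≤ ((m : ℝ) - d) * (2 * T) :=
          mul_le_mul_of_nonneg_left (by linarith) (by linarith)
        nlinarith
      exact le_of_mul_le_mul_left h5 hk
  · -- `h` has exactly two neighbours, `p` is a leaf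
    have hcard : (P.erase p).card = P.card - 1 := Finset.card_erase_of_mem hp
    have hcard' : (H.erase h).card = H.card - 1 := Finset.card_erase_of_mem hh
    have hhc : 1 ≤ H.card := Finset.card_pos.2 ⟨h, hh⟩
    have hpe : p' ∈ P.erase p := Finset.mem_erase.2 ⟨hpp.symm, hp'⟩
    set e' : α → ℝ := fun q => e q + if q = p' then e p else 0 with he'
    have he'0 : ∀ q, 0 ≤ e' q := by
      intro q
      have h1 := he q
      have h2 := he p
      simp only [he']
      split_ifs <;> linarith
    have hsum' : ∀ A : Finset α, ∑ q ∈ A, e' q = ∑ q ∈ A, e q + if p' ∈ A then e p else 0 := by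
      intro A
      simp only [he']
      rw [Finset.sum_add_distrib, Finset.sum_ite_eq']
    have htot : ∑ q ∈ P.erase p, e' q = ∑ q ∈ P, e q := by
      rw [hsum', if_pos hpe, add_comm, Finset.add_sum_erase P e hp]
    obtain ⟨Z, hZ, hZ1, hZ2⟩ := ih _ (by omega) (P.erase p) (H.erase h) e' m d rfl he'0 (by omega)
      (by omega)
    rw [htot, hsum'] at hZ2
    have hnot : p ∉ Z := fun hc => Finset.notMem_erase p P (hZ hc)
    by_cases hpZ : p' ∈ Z
    · rw [if_pos hpZ] at hZ2
      refine ⟨insert p Z, ?_, ?_, ?_⟩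
      · intro q hq
        rcases Finset.mem_insert.1 hq with rfl | hq
        · exact hp
        · exact Finset.erase_subset _ _ (hZ hq)
      · rw [Finset.card_insert_of_notMem hnot]
        have : nb E H (insert p Z) ⊆ insert h (nb E (H.erase h) Z) := by
          intro h' hh'
          rw [mem_nb] at hh'
          obtain ⟨h1, q, hq, hqh⟩ := hh'
          rw [Finset.mem_insert]
          by_cases h0 : h' = h
          · exact Or.inl h0
          right
          rcases Finset.mem_insert.1 hq with rfl | hq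
          · have : h' ∈ nb E H {q} := (mem_nb E).2 ⟨h1, q, Finset.mem_singleton_self q, hqh⟩
            rw [hlp, Finset.mem_singleton] at this
            exact absurd this h0
          · exact (mem_nb E).2 ⟨Finset.mem_erase.2 ⟨h0, h1⟩, q, hq, hqh⟩
        have h2 := Finset.card_le_card this
        have h3 := Finset.card_insert_le h (nb E (H.erase h) Z)
        omega
      · rw [Finset.sum_insert hnot, add_comm (e p)]
        exact hZ2
    · rw [if_neg hpZ, add_zero] at hZ2
      refine ⟨Z, hZ.trans (Finset.erase_subset _ _), ?_, hZ2⟩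
      have : nb E H Z = nb E (H.erase h) Z := by
        ext h'
        rw [mem_nb, mem_nb, Finset.mem_erase]
        constructor
        · rintro ⟨h1, q, hq, hqh⟩
          refine ⟨⟨?_, h1⟩, q, hq, hqh⟩
          rintro rfl
          have h6 : q ∈ bn E P h' := (mem_bn E).2 ⟨Finset.erase_subset _ _ (hZ hq), hqh⟩
          rw [htwo, Finset.mem_insert, Finset.mem_singleton] at h6
          rcases h6 with rfl | rfl
          · exact hnot hq
          · exact hpZ hq
        · rintro ⟨h1, h2⟩
          exact ⟨h1.2, h2⟩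
      rw [this]
      exact hZ1

end

end Pool.Agent.Helper82.CKM
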