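import Pool.Agent.Helper82.CKM.Convex

/-!
# The Lagrangian dual and Lagrangian multiplier preserving approximation
-/

set_option autoImplicit false

namespace Pool.Agent.Helper82.CKM

/-- The optimum is convex up to the factor `C` as a function of the number of facilities. -/
def NearConvex (C : ℝ) : Prop :=
  ∀ (I : Inst) (s1 s2 : Sol I) (k1 k k2 : ℕ), s1.size ≤ k1 → s2.size ≤ k2 → k1 ≤ k → k ≤ k2 →
    k1 < k2 → ∃ s : Sol I, s.size ≤ k ∧
      ((k2 : ℝ) - k1) * s.cost ≤ C * (((k2 : ℝ) - k) * s1.cost + ((k : ℝ) - k1) * s2.cost)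

/-- The optimum with at most `k` facilities is at most `C` times the value of the Lagrangian dual
(in which the bound `k` is replaced by a price `l` for each open facility). -/
def LagrangianGap (C : ℝ) : Prop :=
  ∀ (I : Inst) (k : ℕ) (X : ℝ), (∀ s : Sol I, s.size ≤ k → X ≤ s.cost) →
    ∃ l : ℝ, 0 ≤ l ∧ ∀ s : Sol I, X ≤ C * (s.cost + l * ((s.size : ℝ) - k))

/-- `a` is a Lagrangian multiplier preserving `ρ`-approximate solution of the facility location
problem with the hard capacities of `I` and with equal opening costs `l`. -/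
def IsLMP {I : Inst} (ρ l : ℝ) (a : Sol I) : Prop :=
  ∀ s : Sol I, a.cost + ρ * (l * a.size) ≤ ρ * (s.cost + l * s.size)

lemma nearConvex_of_le {C : ℝ} (hC : 2 ≤ C) : NearConvex C := by
  intro I s1 s2 k1 k k2 h1 h2 h1k hk2 h12
  obtain ⟨s, -, hk, hc⟩ := near_convex s1 s2 h1 h1k hk2 h12 h2
  refine ⟨s, hk, hc.trans ?_⟩
  have r1 : (k1 : ℝ) ≤ k := by exact_mod_cast h1k
  have r2 : (k : ℝ) ≤ k2 := by exact_mod_cast hk2
  refine mul_le_mul_of_nonneg_right hC ?_
  have e3 : 0 ≤ ((k2 : ℝ) - k) * s1.cost := mul_nonneg (by linarith) (cost_nonneg _)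
  have e4 : 0 ≤ ((k : ℝ) - k1) * s2.cost := mul_nonneg (by linarith) (cost_nonneg _)
  linarith

lemma lagrangianGap_of_le {C : ℝ} (hC : 2 ≤ C) : LagrangianGap C := by
  intro I k X hX
  rcases le_or_gt X 0 with h0 | h0
  · refine ⟨0, le_refl _, fun s => h0.trans ?_⟩
    have := cost_nonneg s
    rw [zero_mul, add_zero]
    exact mul_nonneg (by linarith) this
  set T : Set ℝ := {x | x = 0 ∨ ∃ s : Sol I, k < s.size ∧
    x = (X / 2 - s.cost) / ((s.size : ℝ) - k)} with hT
  have hne : T.Nonempty := ⟨0, Or.inl rfl⟩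
  have hbd : ∀ x ∈ T, x ≤ X / 2 := by
    rintro x (rfl | ⟨s, hs, rfl⟩)
    · linarith
    · have h1 : (k : ℝ) + 1 ≤ s.size := by exact_mod_cast hs
      have h2 := cost_nonneg s
      rw [div_le_iff₀ (by linarith)]
      nlinarith
  have hbdd : BddAbove T := ⟨X / 2, hbd⟩
  have key : ∀ s : Sol I, X / 2 ≤ s.cost + sSup T * ((s.size : ℝ) - k) := by
    intro s
    rcases le_or_gt s.size k with hs | hs
    · -- upper bounds for the supremum
      rcases Nat.eq_or_lt_of_le hs with he | hlt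
      · rw [he, sub_self, mul_zero, add_zero]
        have := hX s hs
        linarith
      have hpos : (0 : ℝ) < (k : ℝ) - s.size := by
        have : (s.size : ℝ) < k := by exact_mod_cast hlt
        linarith
      have hub : sSup T ≤ (s.cost - X / 2) / ((k : ℝ) - s.size) := by
        refine csSup_le hne ?_
        rintro x (rfl | ⟨s2, hs2, rfl⟩)
        · refine div_nonneg ?_ hpos.le
          have := hX s hs
          linarith
        · obtain ⟨s', -, hk', hc'⟩ := near_convex s s2 (k1 := s.size) (k2 := s2.size) (le_refl _)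
            hs hs2.le (lt_of_le_of_lt hs hs2) (le_refl _)
          have h1 := hX s' hk'
          have hpos2 : (0 : ℝ) < (s2.size : ℝ) - k := by
            have : (k : ℝ) < s2.size := by exact_mod_cast hs2
            linarith
          have h3 := mul_le_mul_of_nonneg_left h1
            (show (0 : ℝ) ≤ (s2.size : ℝ) - s.size by linarith)
          rw [div_le_div_iff₀ hpos2 hpos]
          linarith
      rw [le_div_iff₀ hpos] at hub
      linarith
    · have hpos2 : (0 : ℝ) < (s.size : ℝ) - k := by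
        have : (k : ℝ) < s.size := by exact_mod_cast hs
        linarith
      have h1 : (X / 2 - s.cost) / ((s.size : ℝ) - k) ≤ sSup T :=
        le_csSup hbdd (Or.inr ⟨s, hs, rfl⟩)
      rw [div_le_iff₀ hpos2] at h1
      linarith
  refine ⟨sSup T, le_csSup hbdd (Or.inl rfl), fun s => ?_⟩
  have h1 := key s
  nlinarith

open Classical in
/-- **From Lagrangian multiplier preserving approximation to exact cardinality.** -/
theorem lmp_reduction {I : Inst} {ρ : ℝ} (hρ : 0 < ρ) {k N : ℕ} (hN : 0 < N) {L : ℝ}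
    {s0 : Sol I} (h0 : s0.size ≤ k) (hL : s0.cost < L)
    {A : ℕ → Sol I} (hA : ∀ t ≤ N, IsLMP ρ (t * (L / N)) (A t)) :
    ∃ t < N, ∃ s : Sol I, s.S ⊆ (A t).S ∪ (A (t + 1)).S ∧ s.size ≤ k ∧
      ∀ s' : Sol I, s'.size ≤ k → s.cost ≤ 2 * ρ * (s'.cost + k * (L / N)) := by
  have hL0 : 0 < L := lt_of_le_of_lt (cost_nonneg _) hL
  have hN0 : (0 : ℝ) < N := by exact_mod_cast hN
  -- the last solution is small
  have hlast : (A N).size ≤ k := by
    have e1 : (N : ℝ) * (L / N) = L := by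
      field_simp
    have h1 := hA N (le_refl _) s0
    rw [e1] at h1
    have h2 := cost_nonneg (A N)
    have h3 : (s0.size : ℝ) ≤ k := by exact_mod_cast h0
    have h4 : ρ * (L * ((A N).size : ℝ)) < ρ * (L * ((k : ℝ) + 1)) := by
      have h5 : ρ * (s0.cost + L * s0.size) < ρ * (L + L * k) := by
        refine mul_lt_mul_of_pos_left ?_ hρ
        have := mul_le_mul_of_nonneg_left h3 hL0.le
        linarith
      nlinarith
    have h5 := lt_of_mul_lt_mul_left (lt_of_mul_lt_mul_left h4 hρ.le) hL0.le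
    have h6 : (A N).size < k + 1 := by exact_mod_cast h5
    omega
  set η : ℝ := L / N with hη
  have hη0 : 0 < η := div_pos hL0 hN0
  rcases le_or_gt (A 0).size k with hz | hz
  · refine ⟨0, hN, A 0, Finset.subset_union_left, hz, fun s' hs' => ?_⟩
    have h1 := hA 0 (Nat.zero_le _) s'
    simp only [Nat.cast_zero, zero_mul, mul_zero, add_zero] at h1
    have h2 := cost_nonneg s'
    have h3 : 0 ≤ (k : ℝ) * η := by positivity
    nlinarith
  · -- a jump
    have hex : ∃ t, t < N ∧ k < (A t).size ∧ (A (t + 1)).size ≤ k := by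
      by_contra hcon
      push Not at hcon
      have hall : ∀ t, t ≤ N → k < (A t).size := by
        intro t
        induction t with
        | zero => intro _; exact hz
        | succ t ih => intro ht; exact hcon t (by omega) (ih (by omega))
      exact absurd hlast (not_le.2 (hall N (le_refl _)))
    obtain ⟨t, htN, ht1, ht2⟩ := hex
    obtain ⟨s, hsS, hsk, hsc⟩ := convex_exact (A (t + 1)) (A t) ht2 ht1
    refine ⟨t, htN, s, ?_, hsk, fun s' hs' => ?_⟩
    · rw [Finset.union_comm]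
      exact hsS
    have g1 := hA (t + 1) htN s'
    have g2 := hA t htN.le s'
    push_cast at g1
    have q0 : (s'.size : ℝ) ≤ k := by exact_mod_cast hs'
    have q1 : ((A (t + 1)).size : ℝ) ≤ k := by exact_mod_cast ht2
    have q2 : (k : ℝ) < (A t).size := by exact_mod_cast ht1
    have q3 : (0 : ℝ) ≤ (A (t + 1)).size := Nat.cast_nonneg _
    generalize ((A (t + 1)).size : ℝ) = a at g1 q1 q3 hsc
    generalize ((A t).size : ℝ) = b at g2 q2 hsc
    generalize (A (t + 1)).cost = c1 at g1 hsc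
    generalize (A t).cost = c2 at g2 hsc
    have hba : 0 < b - a := by linarith
    -- bounds with `k` in place of the size of `s'`
    have g1' : c1 ≤ ρ * s'.cost + ρ * ((((t : ℝ) + 1) * η) * ((k : ℝ) - a)) := by
      have : ρ * ((((t : ℝ) + 1) * η) * (s'.size : ℝ)) ≤ ρ * ((((t : ℝ) + 1) * η) * k) := by
        gcongr
      linarith
    have g2' : c2 ≤ ρ * s'.cost - ρ * (((t : ℝ) * η) * (b - k)) := by
      have : ρ * (((t : ℝ) * η) * (s'.size : ℝ)) ≤ ρ * (((t : ℝ) * η) * k) := by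
        gcongr
      linarith
    have f1 := mul_le_mul_of_nonneg_left g1' (show 0 ≤ b - k by linarith)
    have f2 := mul_le_mul_of_nonneg_left g2' (show 0 ≤ (k : ℝ) - a by linarith)
    have f3 : (b - k) * c1 + ((k : ℝ) - a) * c2 ≤
        (b - a) * (ρ * s'.cost) + ρ * η * ((b - k) * ((k : ℝ) - a)) := by
      nlinarith
    have f4 : (b - k) * ((k : ℝ) - a) ≤ (b - a) * k := by
      have h7 : (b - k) * ((k : ℝ) - a) ≤ (b - a) * ((k : ℝ) - a) :=
        mul_le_mul_of_nonneg_right (by linarith) (by linarith)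
      have h8 : (b - a) * ((k : ℝ) - a) ≤ (b - a) * k :=
        mul_le_mul_of_nonneg_left (by linarith) hba.le
      exact h7.trans h8
    have f5 : ρ * η * ((b - k) * ((k : ℝ) - a)) ≤ ρ * η * ((b - a) * k) :=
      mul_le_mul_of_nonneg_left f4 (by positivity)
    have f6 : (b - a) * s.cost ≤ (b - a) * (2 * ρ * (s'.cost + k * η)) := by
      nlinarith
    exact le_of_mul_le_mul_left f6 hba

/-- an optimal solution with at most `k` facilities -/
lemma exists_opt {I : Inst} {k : ℕ} (hk : ∃ s : Sol I, s.size ≤ k) :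
    ∃ s : Sol I, s.size ≤ k ∧ ∀ s' : Sol I, s'.size ≤ k → s.cost ≤ s'.cost := by
  classical
  have hfin : (Set.range fun s : {s : Sol I // s.size ≤ k} => s.1.cost).Finite := by
    refine (Set.finite_range fun σ : I.D → I.F =>
      ∑ j, I.d (Sum.inr j) (Sum.inl (σ j))).subset ?_
    rintro _ ⟨s, rfl⟩
    exact ⟨s.1.σ, rfl⟩
  obtain ⟨s0, h0⟩ := hk
  obtain ⟨x, ⟨s, rfl⟩, hx⟩ := Set.exists_min_image _ id hfin ⟨_, ⟨⟨s0, h0⟩, rfl⟩⟩
  exact ⟨s.1, s.2, fun s' hs' => hx _ ⟨⟨s', hs'⟩, rfl⟩⟩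

open Classical in
/-- **The reduction with polynomially many prices.** -/
theorem lmp_poly {I : Inst} {ρ ε : ℝ} (hρ : 0 < ρ) (hε : 0 < ε) {k : ℕ}
    (hk : ∃ s : Sol I, s.size ≤ k) (hpos : ∀ s : Sol I, s.size ≤ k → 0 < s.cost)
    {A : ℝ → Sol I} (hA : ∀ l, 0 ≤ l → IsLMP ρ l (A l)) {N : ℕ}
    (hN : ((Fintype.card I.D : ℝ) + 1) * k / ε ≤ N) :
    ∃ (j : I.D) (i : I.F), ∃ t < N, ∃ s : Sol I,
      s.S ⊆ (A (t * (((Fintype.card I.D : ℝ) + 1) * I.d (Sum.inr j) (Sum.inl i) / N))).S ∪
        (A ((t + 1) * (((Fintype.card I.D : ℝ) + 1) * I.d (Sum.inr j) (Sum.inl i) / N))).S ∧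
      s.size ≤ k ∧ ∀ s' : Sol I, s'.size ≤ k → s.cost ≤ 2 * ρ * (1 + ε) * s'.cost := by
  obtain ⟨s0, h0, hmin⟩ := exists_opt hk
  have hc0 := hpos s0 h0
  -- the largest distance
  have hD : (Finset.univ : Finset I.D).Nonempty := by
    rw [Finset.nonempty_iff_ne_empty]
    intro h
    unfold Sol.cost at hc0
    rw [h, Finset.sum_empty] at hc0
    exact lt_irrefl _ hc0
  obtain ⟨j, -, hj⟩ := Finset.exists_max_image Finset.univ
    (fun j => I.d (Sum.inr j) (Sum.inl (s0.σ j))) hD
  set B : ℝ := I.d (Sum.inr j) (Sum.inl (s0.σ j)) with hB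
  have hB0 : 0 ≤ B := I.nonneg _ _
  have hle1 : s0.cost ≤ (Fintype.card I.D : ℝ) * B := by
    unfold Sol.cost
    refine (Finset.sum_le_sum fun j' _ => hj j' (Finset.mem_univ _)).trans ?_
    rw [Finset.sum_const, nsmul_eq_mul, Finset.card_univ]
  have hle2 : B ≤ s0.cost :=
    Finset.single_le_sum (f := fun j => I.d (Sum.inr j) (Sum.inl (s0.σ j)))
      (fun j _ => I.nonneg _ _) (Finset.mem_univ j)
  have hcard : (0 : ℝ) ≤ Fintype.card I.D := Nat.cast_nonneg _
  have hBpos : 0 < B := by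
    rcases hB0.lt_or_eq with h | h
    · exact h
    · rw [← h, mul_zero] at hle1
      linarith
  have hkpos : 0 < k := by
    have h1 : 0 < s0.S.card := Finset.card_pos.2 ⟨_, s0.mem j⟩
    have h2 : s0.S.card ≤ k := h0
    omega
  have hk0 : (0 : ℝ) < k := by exact_mod_cast hkpos
  have hNpos : (0 : ℝ) < N := lt_of_lt_of_le (by positivity) hN
  have hN1 : 0 < N := by exact_mod_cast hNpos
  have hL : s0.cost < ((Fintype.card I.D : ℝ) + 1) * B := by linarith
  have hη : 0 ≤ ((Fintype.card I.D : ℝ) + 1) * B / N := by positivity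
  obtain ⟨t, ht, s, hS, hsk, hsc⟩ := lmp_reduction hρ hN1 h0 hL
    (A := fun t : ℕ => A (t * (((Fintype.card I.D : ℝ) + 1) * B / N)))
    (fun t _ => hA _ (by positivity))
  refine ⟨j, s0.σ j, t, ht, s, ?_, hsk, fun s' hs' => (hsc s' hs').trans ?_⟩
  · have e1 : ((t + 1 : ℕ) : ℝ) = (t : ℝ) + 1 := by push_cast; ring
    rw [e1] at hS
    exact hS
  · have h1 : (k : ℝ) * (((Fintype.card I.D : ℝ) + 1) * B / N) ≤ ε * B := by
      rw [div_le_iff₀ hε] at hN
      rw [mul_div_assoc', div_le_iff₀ hNpos]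
      have := mul_le_mul_of_nonneg_right hN hB0
      linarith
    have h2 : ε * B ≤ ε * s'.cost :=
      mul_le_mul_of_nonneg_left (hle2.trans (hmin s' hs')) hε.le
    have h3 : s'.cost + k * (((Fintype.card I.D : ℝ) + 1) * B / N) ≤ (1 + ε) * s'.cost := by
      linarith
    calc 2 * ρ * (s'.cost + k * (((Fintype.card I.D : ℝ) + 1) * B / N))
        ≤ 2 * ρ * ((1 + ε) * s'.cost) := mul_le_mul_of_nonneg_left h3 (by positivity)
      _ = 2 * ρ * (1 + ε) * s'.cost := by ring

/-- The converse: the best of `ρ`-approximate solutions for all `k` is Lagrangian multiplier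
preserving `ρ`-approximate. -/
theorem lmp_converse {I : Inst} {ρ : ℝ} (hρ : 0 ≤ ρ) {B : ℕ → Sol I}
    (hB : ∀ k, (∃ s : Sol I, s.size ≤ k) →
      (B k).size ≤ k ∧ ∀ s : Sol I, s.size ≤ k → (B k).cost ≤ ρ * s.cost) {l : ℝ} (hl : 0 ≤ l) :
    ∃ k ≤ Fintype.card I.F, IsLMP ρ l (B k) := by
  obtain ⟨k, hk, hmin⟩ := Finset.exists_min_image (Finset.range (Fintype.card I.F + 1))
    (fun k => (B k).cost + ρ * (l * (B k).size)) ⟨0, by simp⟩
  refine ⟨k, Nat.lt_succ_iff.1 (Finset.mem_range.1 hk), fun s => ?_⟩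
  have hsz : s.size ≤ Fintype.card I.F := Finset.card_le_univ s.S
  refine (hmin s.size (Finset.mem_range.2 (by omega))).trans ?_
  obtain ⟨h1, h2⟩ := hB s.size ⟨s, le_refl _⟩
  have h3 := h2 s (le_refl _)
  have h4 : ((B s.size).size : ℝ) ≤ s.size := by exact_mod_cast h1
  have h5 : ρ * (l * ((B s.size).size : ℝ)) ≤ ρ * (l * (s.size : ℝ)) := by gcongr
  linarith

end Pool.Agent.Helper82.CKM
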