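import Pool.Agent.Helper82.CKM.Sharp

/-!
# Capacitated k-median: the reduction that uses only the prices of the grids
-/

set_option autoImplicit false

namespace Pool.Agent.Helper82.CKM

open Classical in
/-- **The reduction with polynomially many prices.** -/
theorem lmp_grid {I : Inst} {ρ ε : ℝ} (hρ : 0 < ρ) (hε : 0 < ε) {k : ℕ}
    (hk : ∃ s : Sol I, s.size ≤ k) (hpos : ∀ s : Sol I, s.size ≤ k → 0 < s.cost)
    {A : ℝ → Sol I} {N : ℕ}
    (hA : ∀ (j : I.D) (i : I.F), ∀ t ≤ N,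
      IsLMP ρ (t * (((Fintype.card I.D : ℝ) + 1) * I.d (Sum.inr j) (Sum.inl i) / N))
        (A (t * (((Fintype.card I.D : ℝ) + 1) * I.d (Sum.inr j) (Sum.inl i) / N))))
    (hN : ((Fintype.card I.D : ℝ) + 1) * k / ε ≤ N) :
    ∃ (j : I.D) (i : I.F), ∃ t < N, ∃ s : Sol I,
      s.S ⊆ (A (t * (((Fintype.card I.D : ℝ) + 1) * I.d (Sum.inr j) (Sum.inl i) / N))).S ∪
        (A ((t + 1) * (((Fintype.card I.D : ℝ) + 1) * I.d (Sum.inr j) (Sum.inl i) / N))).S ∧
      s.size ≤ k ∧ ∀ s' : Sol I, s'.size ≤ k → s.cost ≤ 2 * ρ * (1 + ε) * s'.cost := by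
  obtain ⟨s0, h0, hmin⟩ := exists_opt hk
  have hc0 := hpos s0 h0
  -- the largest distance
  have hD : (Finset.univ : Finset I.D).Nonempty := by
    rw [Finset.nonempty_iff_ne_empty]
    intro h
    unfold Sol.cost at hc0
    rw [h, Finset.sum_empty] at hc0
    exact lt_irrefl _ hc0
  obtain ⟨j, -, hj⟩ := Finset.exists_max_image Finset.univ
    (fun j => I.d (Sum.inr j) (Sum.inl (s0.σ j))) hD
  set B : ℝ := I.d (Sum.inr j) (Sum.inl (s0.σ j)) with hB
  have hB0 : 0 ≤ B := I.nonneg _ _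
  have hle1 : s0.cost ≤ (Fintype.card I.D : ℝ) * B := by
    unfold Sol.cost
    refine (Finset.sum_le_sum fun j' _ => hj j' (Finset.mem_univ _)).trans ?_
    rw [Finset.sum_const, nsmul_eq_mul, Finset.card_univ]
  have hle2 : B ≤ s0.cost :=
    Finset.single_le_sum (f := fun j => I.d (Sum.inr j) (Sum.inl (s0.σ j)))
      (fun j _ => I.nonneg _ _) (Finset.mem_univ j)
  have hcard : (0 : ℝ) ≤ Fintype.card I.D := Nat.cast_nonneg _
  have hBpos : 0 < B := by
    rcases hB0.lt_or_eq with h | h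
    · exact h
    · rw [← h, mul_zero] at hle1
      linarith
  have hkpos : 0 < k := by
    have h1 : 0 < s0.S.card := Finset.card_pos.2 ⟨_, s0.mem j⟩
    have h2 : s0.S.card ≤ k := h0
    omega
  have hk0 : (0 : ℝ) < k := by exact_mod_cast hkpos
  have hNpos : (0 : ℝ) < N := lt_of_lt_of_le (by positivity) hN
  have hN1 : 0 < N := by exact_mod_cast hNpos
  have hL : s0.cost < ((Fintype.card I.D : ℝ) + 1) * B := by linarith
  have hη : 0 ≤ ((Fintype.card I.D : ℝ) + 1) * B / N := by positivity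
  obtain ⟨t, ht, s, hS, hsk, hsc⟩ := lmp_reduction hρ hN1 h0 hL
    (A := fun t : ℕ => A (t * (((Fintype.card I.D : ℝ) + 1) * B / N)))
    (fun t ht => hA j (s0.σ j) t ht)
  refine ⟨j, s0.σ j, t, ht, s, ?_, hsk, fun s' hs' => (hsc s' hs').trans ?_⟩
  · have e1 : ((t + 1 : ℕ) : ℝ) = (t : ℝ) + 1 := by push_cast; ring
    rw [e1] at hS
    exact hS
  · have h1 : (k : ℝ) * (((Fintype.card I.D : ℝ) + 1) * B / N) ≤ ε * B := by
      rw [div_le_iff₀ hε] at hN
      rw [mul_div_assoc', div_le_iff₀ hNpos]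
      have := mul_le_mul_of_nonneg_right hN hB0
      linarith
    have h2 : ε * B ≤ ε * s'.cost :=
      mul_le_mul_of_nonneg_left (hle2.trans (hmin s' hs')) hε.le
    have h3 : s'.cost + k * (((Fintype.card I.D : ℝ) + 1) * B / N) ≤ (1 + ε) * s'.cost := by
      linarith
    calc 2 * ρ * (s'.cost + k * (((Fintype.card I.D : ℝ) + 1) * B / N))
        ≤ 2 * ρ * ((1 + ε) * s'.cost) := mul_le_mul_of_nonneg_left h3 (by positivity)
      _ = 2 * ρ * (1 + ε) * s'.cost := by ring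

end Pool.Agent.Helper82.CKM
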