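import Pool.Agent.Helper82.CKM.Rot

/-!
# An optimal integral transport plan whose support is a forest
-/

set_option autoImplicit false

namespace Pool.Agent.Helper82.CKM

section

variable {F : Type} [Fintype F]

/-- integral plans with given row and column sums -/
def IsPlan (r c : F → ℤ) (N : F → F → ℤ) : Prop :=
  (∀ a b, 0 ≤ N a b) ∧ (∀ a, ∑ b, N a b = r a) ∧ (∀ b, ∑ a, N a b = c b)

/-- cost of an integer matrix -/
noncomputable def pc (d : F → F → ℝ) (N : F → F → ℤ) : ℝ := ∑ a, ∑ b, (N a b : ℝ) * d a b

lemma pc_add (d : F → F → ℝ) (N M : F → F → ℤ) : pc d (N + M) = pc d N + pc d M := by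
  unfold pc
  rw [← Finset.sum_add_distrib]
  refine Finset.sum_congr rfl fun a _ => ?_
  rw [← Finset.sum_add_distrib]
  refine Finset.sum_congr rfl fun b _ => ?_
  simp only [Pi.add_apply, Int.cast_add]
  ring

lemma pc_neg (d : F → F → ℝ) (N : F → F → ℤ) : pc d (-N) = -pc d N := by
  unfold pc
  rw [← Finset.sum_neg_distrib]
  refine Finset.sum_congr rfl fun a _ => ?_
  rw [← Finset.sum_neg_distrib]
  refine Finset.sum_congr rfl fun b _ => ?_
  simp

/-- sum of squares -/
def sq (N : F → F → ℤ) : ℤ := ∑ a, ∑ b, N a b ^ 2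

/-- trace -/
def trc (N : F → F → ℤ) : ℤ := ∑ a, N a a

open Classical in
/-- unit matrix -/
noncomputable def un (u v : F) : F → F → ℤ := fun a b => if a = u ∧ b = v then 1 else 0

open Classical in
lemma un_row (u v a : F) : ∑ b, un u v a b = if a = u then 1 else 0 := by
  unfold un
  by_cases h : a = u
  · simp [h]
  · simp [h]

open Classical in
lemma un_col (u v b : F) : ∑ a, un u v a b = if b = v then 1 else 0 := by
  unfold un
  by_cases h : b = v
  · simp [h]
  · simp [h]

lemma pc_un (d : F → F → ℝ) (u v : F) : pc d (un u v) = d u v := by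
  classical
  unfold pc un
  rw [Finset.sum_eq_single u, Finset.sum_eq_single v]
  · simp
  · intro b _ hb
    simp [hb]
  · simp
  · intro a _ ha
    simp [ha]
  · simp

open Classical in
lemma trc_un (u v : F) : trc (un u v) = if u = v then 1 else 0 := by
  unfold trc un
  by_cases h : u = v
  · subst h
    simp
  · rw [if_neg h]
    refine Finset.sum_eq_zero fun a _ => ?_
    rw [if_neg]
    rintro ⟨rfl, h2⟩
    exact h h2

open Classical in
/-- **The plan.** -/
theorem exists_plan (d : F → F → ℝ) (hd0 : ∀ x, d x x = 0) (htri : ∀ x y z, d x z ≤ d x y + d y z)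
    {r c : F → ℤ} {N0 : F → F → ℤ} (h0 : IsPlan r c N0) :
    ∃ N, IsPlan r c N ∧ pc d N ≤ pc d N0 ∧
      (∀ x a b, a ≠ x → b ≠ x → 0 < N a x → 0 < N x b → False) ∧
      ∀ P H : Finset F, Disjoint P H →
        Sparse (Finset.univ.filter fun x : F × F => x.1 ∈ P ∧ x.2 ∈ H ∧ 0 < N x.1 x.2) := by
  set X : Set (F → F → ℤ) := {N | IsPlan r c N} with hX
  have hfin : X.Finite := by
    refine (Set.finite_Icc (0 : F → F → ℤ) (fun a _ => r a)).subset ?_
    rintro N ⟨h1, h2, h3⟩
    refine ⟨fun a b => h1 a b, fun a b => ?_⟩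
    change N a b ≤ r a
    rw [← h2 a]
    exact Finset.single_le_sum (f := fun b => N a b) (fun b _ => h1 a b) (Finset.mem_univ b)
  set f : (F → F → ℤ) → ℝ ×ₗ (ℤ ×ₗ ℤ) := fun N => toLex (pc d N, toLex (-trc N, -sq N)) with hf
  obtain ⟨N, hN, hmin⟩ := Set.exists_min_image X f hfin ⟨N0, h0⟩
  have hcost : ∀ N', IsPlan r c N' → pc d N ≤ pc d N' := by
    intro N' h
    have := hmin N' h
    simp only [hf] at this
    rw [Prod.Lex.toLex_le_toLex] at this
    rcases this with h1 | ⟨h1, _⟩
    · exact h1.le
    · exact h1.le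
  have htrc : ∀ N', IsPlan r c N' → pc d N' = pc d N → trc N' ≤ trc N := by
    intro N' h he
    have := hmin N' h
    simp only [hf] at this
    rw [Prod.Lex.toLex_le_toLex] at this
    rcases this with h1 | ⟨_, h1⟩
    · simp only at h1
      rw [he] at h1
      exact absurd h1 (lt_irrefl _)
    · simp only at h1
      rw [Prod.Lex.toLex_le_toLex] at h1
      rcases h1 with h1 | ⟨h1, _⟩
      · simp only at h1
        omega
      · simp only at h1
        omega
  have hsq : ∀ N', IsPlan r c N' → pc d N' = pc d N → trc N' = trc N → sq N' ≤ sq N := by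
    intro N' h he ht
    have := hmin N' h
    simp only [hf] at this
    rw [Prod.Lex.toLex_le_toLex] at this
    rcases this with h1 | ⟨_, h1⟩
    · simp only at h1
      rw [he] at h1
      exact absurd h1 (lt_irrefl _)
    · simp only at h1
      rw [Prod.Lex.toLex_le_toLex] at h1
      rcases h1 with h1 | ⟨_, h1⟩
      · simp only at h1
        omega
      · simp only at h1
        omega
  have hadd : ∀ ψ : F → F → ℤ, (∀ a b, 0 ≤ N a b + ψ a b) → (∀ a, ∑ b, ψ a b = 0) →
      (∀ b, ∑ a, ψ a b = 0) → IsPlan r c (N + ψ) := by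
    intro ψ h1 h2 h3
    refine ⟨h1, fun a => ?_, fun b => ?_⟩
    · simp only [Pi.add_apply]
      rw [Finset.sum_add_distrib, h2, add_zero]
      exact hN.2.1 a
    · simp only [Pi.add_apply]
      rw [Finset.sum_add_distrib, h3, add_zero]
      exact hN.2.2 b
  refine ⟨N, hN, hcost N0 h0, ?_, ?_⟩
  · intro x a b ha hb h1 h2
    set ψ : F → F → ℤ := un x x + un a b - un x b - un a x with hψ
    have hpl : IsPlan r c (N + ψ) := by
      refine hadd ψ ?_ ?_ ?_
      · intro a' b'
        have h3 := hN.1 a' b'
        have g0 : ∀ u v : F, 0 ≤ un u v a' b' := by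
          intro u v
          unfold un
          split_ifs <;> omega
        have g1 := g0 x x
        have g2 := g0 a b
        have key : un x b a' b' + un a x a' b' ≤ N a' b' := by
          unfold un
          by_cases k1 : a' = x ∧ b' = b
          · have k2 : ¬ (a' = a ∧ b' = x) := fun h => ha (h.1.symm.trans k1.1)
            rw [if_pos k1, if_neg k2, k1.1, k1.2]
            omega
          · by_cases k2 : a' = a ∧ b' = x
            · rw [if_neg k1, if_pos k2, k2.1, k2.2]
              omega
            · rw [if_neg k1, if_neg k2]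
              omega
        simp only [hψ, Pi.add_apply, Pi.sub_apply]
        omega
      · intro a'
        simp only [hψ, Pi.add_apply, Pi.sub_apply]
        rw [Finset.sum_sub_distrib, Finset.sum_sub_distrib, Finset.sum_add_distrib, un_row, un_row,
          un_row, un_row]
        ring
      · intro b'
        simp only [hψ, Pi.add_apply, Pi.sub_apply]
        rw [Finset.sum_sub_distrib, Finset.sum_sub_distrib, Finset.sum_add_distrib, un_col, un_col,
          un_col, un_col]
        ring
    have hpc : pc d ψ = d x x + d a b - d x b - d a x := by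
      have e1 : ψ = un x x + un a b + (-un x b) + (-un a x) := by
        rw [hψ]; abel
      rw [e1, pc_add, pc_add, pc_add, pc_neg, pc_neg, pc_un, pc_un, pc_un, pc_un]
      ring
    have hle : pc d ψ ≤ 0 := by
      rw [hpc, hd0]
      have := htri a x b
      linarith
    have h3 := hcost _ hpl
    rw [pc_add] at h3
    have h4 : pc d (N + ψ) = pc d N := by
      rw [pc_add]
      linarith
    have h5 := htrc _ hpl h4
    have h6 : trc (N + ψ) = trc N + trc ψ := by
      unfold trc
      rw [← Finset.sum_add_distrib]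
      rfl
    have h7 : trc ψ = trc (un x x) + trc (un a b) - trc (un x b) - trc (un a x) := by
      unfold trc
      rw [← Finset.sum_add_distrib, ← Finset.sum_sub_distrib, ← Finset.sum_sub_distrib]
      rfl
    rw [h6, h7, trc_un, trc_un, trc_un, trc_un, if_pos rfl, if_neg (Ne.symm hb), if_neg ha] at h5
    split_ifs at h5 <;> omega
  · intro P H hPH
    by_contra hns
    obtain ⟨ψ, ⟨a0, b0, hne⟩, hsup, habs, hrow, hcol⟩ := exists_rot hns
    have hsup' : ∀ a b, ψ a b ≠ 0 → a ∈ P ∧ b ∈ H ∧ 0 < N a b := fun a b h =>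
      (Finset.mem_filter.1 (hsup a b h)).2
    have hp1 : IsPlan r c (N + ψ) := by
      refine hadd ψ (fun a b => ?_) hrow hcol
      have h1 := hN.1 a b
      have h2 := abs_le.1 (habs a b)
      by_cases h : ψ a b = 0
      · omega
      · have := (hsup' a b h).2.2
        omega
    have hp2 : IsPlan r c (N + -ψ) := by
      refine hadd (-ψ) (fun a b => ?_) (fun a => ?_) (fun b => ?_)
      · have h1 := hN.1 a b
        have h2 := abs_le.1 (habs a b)
        simp only [Pi.neg_apply]
        by_cases h : ψ a b = 0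
        · omega
        · have := (hsup' a b h).2.2
          omega
      · simp only [Pi.neg_apply]
        rw [Finset.sum_neg_distrib, hrow, neg_zero]
      · simp only [Pi.neg_apply]
        rw [Finset.sum_neg_distrib, hcol, neg_zero]
    have h1 := hcost _ hp1
    have h2 := hcost _ hp2
    rw [pc_add] at h1 h2
    rw [pc_neg] at h2
    have e1 : pc d (N + ψ) = pc d N := by rw [pc_add]; linarith
    have e2 : pc d (N + -ψ) = pc d N := by rw [pc_add, pc_neg]; linarith
    have hz : ∀ a, ψ a a = 0 := by
      intro a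
      by_contra h
      obtain ⟨k1, k2, _⟩ := hsup' a a h
      exact (Finset.disjoint_left.1 hPH k1) k2
    have t1 : trc (N + ψ) = trc N := by
      unfold trc
      refine Finset.sum_congr rfl fun a _ => ?_
      simp only [Pi.add_apply]
      rw [hz, add_zero]
    have t2 : trc (N + -ψ) = trc N := by
      unfold trc
      refine Finset.sum_congr rfl fun a _ => ?_
      simp only [Pi.add_apply, Pi.neg_apply]
      rw [hz, neg_zero, add_zero]
    have s1 := hsq _ hp1 e1 t1
    have s2 := hsq _ hp2 e2 t2
    have s3 : sq (N + ψ) + sq (N + -ψ) = 2 * sq N + 2 * sq ψ := by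
      unfold sq
      rw [← Finset.sum_add_distrib, Finset.mul_sum, Finset.mul_sum, ← Finset.sum_add_distrib]
      refine Finset.sum_congr rfl fun a _ => ?_
      rw [← Finset.sum_add_distrib, Finset.mul_sum, Finset.mul_sum, ← Finset.sum_add_distrib]
      refine Finset.sum_congr rfl fun b _ => ?_
      simp only [Pi.add_apply, Pi.neg_apply]
      ring
    have s4 : 0 < sq ψ := by
      unfold sq
      have k1 : ψ a0 b0 ^ 2 ≤ ∑ b, ψ a0 b ^ 2 :=
        Finset.single_le_sum (f := fun b => ψ a0 b ^ 2) (fun b _ => sq_nonneg _)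
          (Finset.mem_univ b0)
      have k2 : ∑ b, ψ a0 b ^ 2 ≤ ∑ a, ∑ b, ψ a b ^ 2 :=
        Finset.single_le_sum (f := fun a => ∑ b, ψ a b ^ 2)
          (fun a _ => Finset.sum_nonneg fun b _ => sq_nonneg _) (Finset.mem_univ a0)
      have k3 : 0 < ψ a0 b0 ^ 2 := by positivity
      omega
    omega

open Classical in
/-- a plan is realised by a reassignment of the clients -/
theorem realise {J : Type} [Fintype J] (σ : J → F) {c : F → ℤ} {N : F → F → ℤ}
    (hN : IsPlan (fun a => ((Finset.univ.filter fun j => σ j = a).card : ℤ)) c N) :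
    ∃ τ : J → F, ∀ a b, ((Finset.univ.filter fun j => σ j = a ∧ τ j = b).card : ℤ) = N a b := by
  have hfib : ∀ a, ∃ g : {j // σ j = a} → F,
      ∀ b, (Fintype.card {x : {j // σ j = a} // g x = b} : ℤ) = N a b := by
    intro a
    have hc : Fintype.card {j // σ j = a} = Fintype.card (Σ b, Fin (N a b).toNat) := by
      rw [Fintype.card_sigma]
      simp only [Fintype.card_fin]
      have h1 := hN.2.1 a
      rw [Fintype.card_subtype]
      have h2 : ((∑ b, (N a b).toNat : ℕ) : ℤ) = ∑ b, N a b := by
        push_cast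
        exact Finset.sum_congr rfl fun b _ => Int.toNat_of_nonneg (hN.1 a b)
      have h3 : ((Finset.univ.filter fun j => σ j = a).card : ℤ) = ((∑ b, (N a b).toNat : ℕ) : ℤ) := by
        rw [h2, h1]
      exact_mod_cast h3
    obtain ⟨e⟩ := Fintype.card_eq.1 hc
    refine ⟨fun x => (e x).1, fun b => ?_⟩
    have h4 : Fintype.card {x : {j // σ j = a} // (e x).1 = b} = (N a b).toNat := by
      have e1 : {x : {j // σ j = a} // (e x).1 = b} ≃ {y : Σ b, Fin (N a b).toNat // y.1 = b} :=
        e.subtypeEquiv fun x => Iff.rfl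
      have e2 : {y : Σ b, Fin (N a b).toNat // y.1 = b} ≃ Fin (N a b).toNat := by
        refine ⟨fun y => Fin.cast (by rw [y.2]) y.1.2, fun i => ⟨⟨b, i⟩, rfl⟩, ?_, fun i => rfl⟩
        rintro ⟨⟨b', i⟩, h⟩
        simp only at h
        subst h
        rfl
      rw [Fintype.card_congr (e1.trans e2), Fintype.card_fin]
    rw [h4]
    exact Int.toNat_of_nonneg (hN.1 a b)
  choose g hg using hfib
  refine ⟨fun j => g (σ j) ⟨j, rfl⟩, fun a b => ?_⟩
  rw [← hg a b]
  congr 1
  rw [← Fintype.card_subtype]
  refine Fintype.card_congr ?_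
  refine ⟨fun j => ⟨⟨j.1, j.2.1⟩, ?_⟩, fun x => ⟨x.1.1, x.1.2, ?_⟩, fun j => rfl, fun x => rfl⟩
  · obtain ⟨j, rfl, h⟩ := j
    exact h
  · obtain ⟨⟨j, rfl⟩, h⟩ := x
    exact h

end

end Pool.Agent.Helper82.CKM
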