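import Pool.Agent.Helper82.CKM.Defs
import Pool.Agent.Helper82.CKM.Forest
import Pool.Agent.Helper82.CKM.Plan

/-!
# Merging two solutions
-/

set_option autoImplicit false

namespace Pool.Agent.Helper82.CKM

open Classical in
lemma sum_count {J F : Type} [Fintype J] [Fintype F] (σ τ : J → F) (g : F → F → ℝ) :
    ∑ a, ∑ b, ((Finset.univ.filter fun j => σ j = a ∧ τ j = b).card : ℝ) * g a b =
      ∑ j, g (σ j) (τ j) := by
  have h1 : ∀ a b, ((Finset.univ.filter fun j => σ j = a ∧ τ j = b).card : ℝ) * g a b =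
      ∑ j, if σ j = a ∧ τ j = b then g a b else 0 := by
    intro a b
    rw [← Finset.sum_filter, Finset.sum_const, nsmul_eq_mul]
  have h2 : ∑ a, ∑ b, ((Finset.univ.filter fun j => σ j = a ∧ τ j = b).card : ℝ) * g a b =
      ∑ a, ∑ b, ∑ j, if σ j = a ∧ τ j = b then g a b else 0 :=
    Finset.sum_congr rfl fun a _ => Finset.sum_congr rfl fun b _ => h1 a b
  have h3 : ∀ a, ∑ b, ∑ j, (if σ j = a ∧ τ j = b then g a b else 0) =
      ∑ j, ∑ b, if σ j = a ∧ τ j = b then g a b else 0 := fun a => Finset.sum_comm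
  rw [h2, Finset.sum_congr rfl fun a _ => h3 a, Finset.sum_comm]
  refine Finset.sum_congr rfl fun j _ => ?_
  rw [Finset.sum_eq_single (σ j), Finset.sum_eq_single (τ j)]
  · rw [if_pos ⟨rfl, rfl⟩]
  · intro b _ hb
    rw [if_neg]
    exact fun h => hb h.2.symm
  · intro h
    exact absurd (Finset.mem_univ _) h
  · intro a _ ha
    refine Finset.sum_eq_zero fun b _ => ?_
    rw [if_neg]
    exact fun h => ha h.1.symm
  · intro h
    exact absurd (Finset.mem_univ _) h

open Classical in
lemma isPlan_count {J F : Type} [Fintype J] [Fintype F] (σ τ : J → F) :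
    IsPlan (fun a => ((Finset.univ.filter fun j => σ j = a).card : ℤ))
      (fun b => ((Finset.univ.filter fun j => τ j = b).card : ℤ))
      (fun a b => ((Finset.univ.filter fun j => σ j = a ∧ τ j = b).card : ℤ)) := by
  refine ⟨fun a b => Int.natCast_nonneg _, fun a => ?_, fun b => ?_⟩
  · rw [← Nat.cast_sum]
    congr 1
    rw [Finset.card_eq_sum_card_fiberwise (f := τ) (t := Finset.univ)
      (fun j _ => Finset.mem_univ _)]
    refine Finset.sum_congr rfl fun b _ => ?_
    rw [Finset.filter_filter]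
  · rw [← Nat.cast_sum]
    congr 1
    rw [Finset.card_eq_sum_card_fiberwise (f := σ) (t := Finset.univ)
      (fun j _ => Finset.mem_univ _)]
    refine Finset.sum_congr rfl fun a _ => ?_
    rw [Finset.filter_filter]
    congr 1
    refine Finset.filter_congr fun j _ => ?_
    exact and_comm

open Classical in
/-- **Merging**: from two solutions with `|S₂| = |S₁| + m` and `d ≤ m` one gets a solution that
opens `d` facilities less than the second one. -/
theorem merge {I : Inst} (s1 s2 : Sol I) {m d : ℕ} (hm : s2.size = s1.size + m) (hd : d ≤ m) :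
    ∃ s : Sol I, s.S ⊆ s1.S ∪ s2.S ∧ s.size + d ≤ s2.size ∧
      ((m : ℝ) + d) * s.cost ≤ ((m : ℝ) + d) * s2.cost + 2 * d * (s1.cost + s2.cost) := by
  set δ : I.F → I.F → ℝ := fun a b => I.d (Sum.inl a) (Sum.inl b) with hδ
  obtain ⟨N, hN, hcost, hunc, hsparse⟩ := exists_plan δ (fun x => I.self _)
    (fun x y z => I.tri _ _ _) (isPlan_count s2.σ s1.σ)
  obtain ⟨τ, hτ⟩ := realise s2.σ hN
  -- the total cost of the plan
  have hpc : pc δ N ≤ s1.cost + s2.cost := by
    refine hcost.trans ?_
    have e1 : pc δ (fun a b => ((Finset.univ.filter fun j => s2.σ j = a ∧ s1.σ j = b).card : ℤ)) =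
        ∑ j, δ (s2.σ j) (s1.σ j) := by
      rw [← sum_count s2.σ s1.σ δ]
      unfold pc
      simp only [Int.cast_natCast]
    rw [e1]
    unfold Sol.cost
    rw [← Finset.sum_add_distrib]
    refine Finset.sum_le_sum fun j _ => ?_
    have := I.tri (Sum.inl (s2.σ j)) (Sum.inr j) (Sum.inl (s1.σ j))
    rw [I.symm (Sum.inl (s2.σ j)) (Sum.inr j)] at this
    simp only [hδ]
    linarith
  set P : Finset I.F := s2.S \ s1.S with hP
  set H : Finset I.F := s1.S \ s2.S with hH
  have hPH : Disjoint P H := by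
    rw [Finset.disjoint_left]
    intro x h1 h2
    exact (Finset.mem_sdiff.1 h1).2 (Finset.mem_sdiff.1 h2).1
  have hcard : P.card = H.card + m := by
    have h1 : P.card + (s2.S ∩ s1.S).card = s2.S.card :=
      Finset.card_sdiff_add_card_inter s2.S s1.S
    have h2 : H.card + (s1.S ∩ s2.S).card = s1.S.card :=
      Finset.card_sdiff_add_card_inter s1.S s2.S
    rw [Finset.inter_comm] at h2
    unfold Sol.size at hm
    omega
  set e : I.F → ℝ := fun a => ∑ b, (N a b : ℝ) * δ a b with he
  have he0 : ∀ a, 0 ≤ e a := by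
    intro a
    refine Finset.sum_nonneg fun b _ => mul_nonneg ?_ (I.nonneg _ _)
    exact_mod_cast hN.1 a b
  obtain ⟨Z, hZP, hZc, hZe⟩ := forest _ (hsparse P H hPH) (P.card + H.card) P H e m d rfl he0 hcard hd
  set E : Finset (I.F × I.F) :=
    Finset.univ.filter fun x : I.F × I.F => x.1 ∈ P ∧ x.2 ∈ H ∧ 0 < N x.1 x.2 with hE
  have hePc : ∑ a ∈ P, e a ≤ pc δ N :=
    Finset.sum_le_sum_of_subset_of_nonneg (Finset.subset_univ P) (fun a _ _ => he0 a)
  -- a facility that receives something is in `S₁`
  have hrec : ∀ a b, 0 < N a b → b ∈ s1.S := by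
    intro a b hab
    have h1 := hN.2.2 b
    beta_reduce at h1
    have h2 : N a b ≤ ∑ a, N a b :=
      Finset.single_le_sum (f := fun a => N a b) (fun a _ => hN.1 a b) (Finset.mem_univ a)
    have h3 : 0 < (Finset.univ.filter fun j => s1.σ j = b).card := by
      have h4 : (0 : ℤ) < ((Finset.univ.filter fun j => s1.σ j = b).card : ℤ) := by
        rw [← h1]
        omega
      exact_mod_cast h4
    obtain ⟨j, hj⟩ := Finset.card_pos.1 h3
    rw [← (Finset.mem_filter.1 hj).2]
    exact s1.mem j
  have hτpos : ∀ j, 0 < N (s2.σ j) (τ j) := by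
    intro j
    rw [← hτ]
    have : 0 < (Finset.univ.filter fun j' => s2.σ j' = s2.σ j ∧ τ j' = τ j).card :=
      Finset.card_pos.2 ⟨j, Finset.mem_filter.2 ⟨Finset.mem_univ _, rfl, rfl⟩⟩
    exact_mod_cast this
  have hZ1 : ∀ a ∈ Z, a ∉ s1.S := fun a ha => (Finset.mem_sdiff.1 (hZP ha)).2
  have hZ2 : ∀ a ∈ Z, a ∈ s2.S := fun a ha => (Finset.mem_sdiff.1 (hZP ha)).1
  set S : Finset I.F := (s2.S \ Z) ∪ nb E H Z with hS
  have hnbH : nb E H Z ⊆ H := Finset.filter_subset _ _
  have hZS : ∀ b ∈ S, b ∉ Z := by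
    intro b hb hbZ
    rcases Finset.mem_union.1 hb with h | h
    · exact (Finset.mem_sdiff.1 h).2 hbZ
    · exact (Finset.mem_sdiff.1 (hnbH h)).2 (hZ2 b hbZ)
  -- loads
  have hload : ∀ b, b ∉ Z → ((Finset.univ.filter fun j =>
      (if s2.σ j ∈ Z then τ j else s2.σ j) = b).card : ℤ) =
      ∑ a ∈ Z, N a b + ((Finset.univ.filter fun j => s2.σ j = b).card : ℤ) := by
    intro b hb
    have h1 : (Finset.univ.filter fun j => (if s2.σ j ∈ Z then τ j else s2.σ j) = b) =
        (Finset.univ.filter fun j => s2.σ j ∈ Z ∧ τ j = b) ∪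
          (Finset.univ.filter fun j => s2.σ j = b) := by
      ext j
      simp only [Finset.mem_union, Finset.mem_filter, Finset.mem_univ, true_and]
      by_cases h : s2.σ j ∈ Z
      · simp only [h, if_true, true_and]
        constructor
        · intro h2
          exact Or.inl h2
        · rintro (h2 | h2)
          · exact h2
          · exact absurd (h2 ▸ h) hb
      · simp only [h, if_false, false_and, false_or]
    have h2 : Disjoint (Finset.univ.filter fun j => s2.σ j ∈ Z ∧ τ j = b)
        (Finset.univ.filter fun j => s2.σ j = b) := by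
      rw [Finset.disjoint_left]
      intro j h3 h4
      have h5 := (Finset.mem_filter.1 h3).2.1
      rw [(Finset.mem_filter.1 h4).2] at h5
      exact hb h5
    rw [h1, Finset.card_union_of_disjoint h2, Nat.cast_add]
    congr 1
    rw [Finset.card_eq_sum_card_fiberwise (f := s2.σ) (t := Z)
      (fun j hj => (Finset.mem_filter.1 hj).2.1), Nat.cast_sum]
    refine Finset.sum_congr rfl fun a ha => ?_
    rw [← hτ a b, Finset.filter_filter]
    congr 2
    refine Finset.filter_congr fun j _ => ?_
    constructor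
    · rintro ⟨⟨_, h4⟩, h5⟩
      exact ⟨h5, h4⟩
    · rintro ⟨h4, h5⟩
      exact ⟨⟨h4 ▸ ha, h5⟩, h4⟩
  have hmem : ∀ j, (if s2.σ j ∈ Z then τ j else s2.σ j) ∈ S := by
    intro j
    by_cases h : s2.σ j ∈ Z
    · rw [if_pos h]
      have h1 := hτpos j
      have h2 := hrec _ _ h1
      by_cases h3 : τ j ∈ s2.S
      · exact Finset.mem_union_left _ (Finset.mem_sdiff.2 ⟨h3, fun h4 => hZ1 _ h4 h2⟩)
      · refine Finset.mem_union_right _ ((mem_nb E).2 ⟨Finset.mem_sdiff.2 ⟨h2, h3⟩, s2.σ j, h, ?_⟩)
        exact Finset.mem_filter.2 ⟨Finset.mem_univ _, hZP h, Finset.mem_sdiff.2 ⟨h2, h3⟩, h1⟩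
    · rw [if_neg h]
      exact Finset.mem_union_left _ (Finset.mem_sdiff.2 ⟨s2.mem j, h⟩)
  have hcap : ∀ b ∈ S, (Finset.univ.filter fun j =>
      (if s2.σ j ∈ Z then τ j else s2.σ j) = b).card ≤ I.U b := by
    intro b hb
    have hbZ := hZS b hb
    have h1 := hload b hbZ
    by_cases h2 : ∑ a ∈ Z, N a b = 0
    · rw [h2, zero_add] at h1
      have h3 : (Finset.univ.filter fun j => (if s2.σ j ∈ Z then τ j else s2.σ j) = b).card =
        (Finset.univ.filter fun j => s2.σ j = b).card := by exact_mod_cast h1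
      rw [h3]
      by_cases h4 : b ∈ s2.S
      · exact s2.cap b h4
      · have h5 : (Finset.univ.filter fun j => s2.σ j = b) = ∅ := by
          rw [Finset.filter_eq_empty_iff]
          intro j _ h6
          exact h4 (h6 ▸ s2.mem j)
        rw [h5, Finset.card_empty]
        exact Nat.zero_le _
    · obtain ⟨a, ha, hab⟩ := Finset.exists_ne_zero_of_sum_ne_zero h2
      have hab' : 0 < N a b := lt_of_le_of_ne (hN.1 a b) (Ne.symm hab)
      have hb1 := hrec a b hab'
      have hne : a ≠ b := by
        rintro rfl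
        exact hbZ ha
      have hrow : ((Finset.univ.filter fun j => s2.σ j = b).card : ℤ) = N b b := by
        have h8 := hN.2.1 b
        beta_reduce at h8
        rw [← h8]
        refine Finset.sum_eq_single b (fun b' _ hb' => ?_) (fun h => absurd (Finset.mem_univ _) h)
        by_contra h
        exact hunc b a b' hne hb' hab' (lt_of_le_of_ne (hN.1 b b') (Ne.symm h))
      have hcol := hN.2.2 b
      beta_reduce at hcol
      have h5 : ∑ a ∈ Z, N a b + N b b ≤ ∑ a, N a b := by
        rw [add_comm, ← Finset.sum_insert (f := fun a => N a b) hbZ]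
        exact Finset.sum_le_sum_of_subset_of_nonneg (Finset.subset_univ _)
          (fun a _ _ => hN.1 a b)
      have h6 := s1.cap b hb1
      have h7 : ((Finset.univ.filter fun j => (if s2.σ j ∈ Z then τ j else s2.σ j) = b).card : ℤ) ≤
          (I.U b : ℤ) := by
        rw [h1, hrow]
        refine h5.trans ?_
        rw [hcol]
        exact_mod_cast h6
      exact_mod_cast h7
  refine ⟨⟨S, fun j => if s2.σ j ∈ Z then τ j else s2.σ j, hmem, hcap⟩, ?_, ?_, ?_⟩
  · intro b hb
    rcases Finset.mem_union.1 hb with h | h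
    · exact Finset.mem_union_right _ (Finset.mem_sdiff.1 h).1
    · exact Finset.mem_union_left _ (Finset.mem_sdiff.1 (hnbH h)).1
  · change S.card + d ≤ s2.S.card
    have h1 : S.card ≤ (s2.S \ Z).card + (nb E H Z).card := Finset.card_union_le _ _
    have h2 : (s2.S \ Z).card + Z.card = s2.S.card := by
      rw [Finset.card_sdiff_add_card, Finset.union_eq_left.2 hZ2]
    omega
  · have hc : Sol.cost (⟨S, fun j => if s2.σ j ∈ Z then τ j else s2.σ j, hmem, hcap⟩ : Sol I) ≤
        s2.cost + ∑ a ∈ Z, e a := by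
      have h1 : ∑ a ∈ Z, e a = ∑ j, if s2.σ j ∈ Z then δ (s2.σ j) (τ j) else 0 := by
        have h2 := sum_count s2.σ τ (fun a b => if a ∈ Z then δ a b else 0)
        rw [← h2, ← Finset.sum_filter_add_sum_filter_not Finset.univ (fun a => a ∈ Z)]
        have h3 : ∑ a ∈ Finset.univ.filter (fun a => ¬ a ∈ Z), ∑ b,
            ((Finset.univ.filter fun j => s2.σ j = a ∧ τ j = b).card : ℝ) *
              (if a ∈ Z then δ a b else 0) = 0 := by
          refine Finset.sum_eq_zero fun a ha => Finset.sum_eq_zero fun b _ => ?_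
          rw [if_neg (Finset.mem_filter.1 ha).2, mul_zero]
        rw [h3, add_zero]
        have h4 : Finset.univ.filter (fun a => a ∈ Z) = Z := by
          ext a
          simp
        rw [h4]
        refine Finset.sum_congr rfl fun a ha => ?_
        simp only [he]
        refine Finset.sum_congr rfl fun b _ => ?_
        rw [if_pos ha, ← hτ a b, Int.cast_natCast]
      rw [h1]
      unfold Sol.cost
      rw [← Finset.sum_add_distrib]
      refine Finset.sum_le_sum fun j _ => ?_
      by_cases h : s2.σ j ∈ Z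
      · rw [if_pos h]
        simp only [h, if_true, hδ]
        exact I.tri _ _ _
      · rw [if_neg h]
        simp only [h, if_false, add_zero]
        exact le_refl _
    have hm0 : (0 : ℝ) ≤ m := Nat.cast_nonneg m
    have hd0 : (0 : ℝ) ≤ d := Nat.cast_nonneg d
    have h5 := mul_le_mul_of_nonneg_left hc (add_nonneg hm0 hd0)
    have h6 : 2 * (d : ℝ) * ∑ a ∈ P, e a ≤ 2 * d * (s1.cost + s2.cost) :=
      mul_le_mul_of_nonneg_left (hePc.trans hpc) (by positivity)
    rw [mul_add] at h5
    linarith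

end Pool.Agent.Helper82.CKM
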