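import Pool.Agent.Helper82.CKM.Sharp

namespace Pool.Agent.Helper82.CKM.MergingOld

open Pool.Agent.Helper82.CKM

/-- Capacitated `k`-median with arbitrary hard capacities.

1. The optimum is convex in the number of facilities up to the factor `C` if and only if `2 ≤ C`.
2. The Lagrangian gap (a price for the open facilities in place of the bound `k`) is at most `C` if
   and only if `2 ≤ C`.
3. Merging: from solutions `s1`, `s2` with at most `k1 ≤ k` and at most `k2 ≥ k` facilities one gets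
   a solution that opens at most `k` of the facilities of `s1` and `s2`, respects the capacities
   and costs at most twice the convex combination.
4. Hence Lagrangian multiplier preserving `ρ`-approximate solutions `A t` of the facility location
   problem with the same capacities and equal opening costs `t L / N`, `t = 0, ..., N`, where `L`
   exceeds the cost of a solution with at most `k` facilities, give for two neighbouring prices a
   merged solution with at most `k` facilities of cost at most `2 ρ (OPT + k L / N)`.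
5. If `OPT > 0` and `N ≥ (|D| + 1) k / ε`, then for two neighbouring prices of one of the grids
   `t (|D| + 1) d(j, i) / N`, `t = 0, ..., N`, where `j` is a client and `i` a facility, the merged
   solution costs at most `2 ρ (1 + ε) OPT`.
6. Conversely, among `ρ`-approximate solutions for all `k` there is for every price `l` one that is
   Lagrangian multiplier preserving `ρ`-approximate. -/
theorem result :
    (∀ C : ℝ, NearConvex C ↔ 2 ≤ C) ∧
    (∀ C : ℝ, LagrangianGap C ↔ 2 ≤ C) ∧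
    (∀ (I : Inst) (s1 s2 : Sol I) (k1 k k2 : ℕ), s1.size ≤ k1 → s2.size ≤ k2 → k1 ≤ k → k ≤ k2 →
      k1 < k2 → ∃ s : Sol I, (∀ i ∈ s.S, i ∈ s1.S ∨ i ∈ s2.S) ∧ s.size ≤ k ∧
        ((k2 : ℝ) - k1) * s.cost ≤
          2 * (((k2 : ℝ) - k) * s1.cost + ((k : ℝ) - k1) * s2.cost)) ∧
    (∀ (I : Inst) (ρ L : ℝ) (k N : ℕ) (s0 : Sol I) (A : ℕ → Sol I), 0 < ρ → 0 < N →
      s0.size ≤ k → s0.cost < L → (∀ t ≤ N, IsLMP ρ (t * (L / N)) (A t)) →
      ∃ t < N, ∃ s : Sol I, (∀ i ∈ s.S, i ∈ (A t).S ∨ i ∈ (A (t + 1)).S) ∧ s.size ≤ k ∧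
        ∀ s' : Sol I, s'.size ≤ k → s.cost ≤ 2 * ρ * (s'.cost + k * (L / N))) ∧
    (∀ (I : Inst) (ρ ε : ℝ) (k N : ℕ) (A : ℝ → Sol I), 0 < ρ → 0 < ε →
      (∃ s : Sol I, s.size ≤ k) → (∀ s : Sol I, s.size ≤ k → 0 < s.cost) →
      (∀ l, 0 ≤ l → IsLMP ρ l (A l)) → ((Fintype.card I.D : ℝ) + 1) * k / ε ≤ N →
      ∃ (j : I.D) (i : I.F), ∃ t < N, ∃ s : Sol I,
        (∀ x ∈ s.S,
          x ∈ (A (t * (((Fintype.card I.D : ℝ) + 1) * I.d (Sum.inr j) (Sum.inl i) / N))).S ∨
          x ∈ (A ((t + 1) * (((Fintype.card I.D : ℝ) + 1) * I.d (Sum.inr j) (Sum.inl i) / N))).S) ∧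
        s.size ≤ k ∧ ∀ s' : Sol I, s'.size ≤ k → s.cost ≤ 2 * ρ * (1 + ε) * s'.cost) ∧
    (∀ (I : Inst) (ρ : ℝ) (B : ℕ → Sol I), 0 ≤ ρ →
      (∀ k, (∃ s : Sol I, s.size ≤ k) →
        (B k).size ≤ k ∧ ∀ s : Sol I, s.size ≤ k → (B k).cost ≤ ρ * s.cost) →
      ∀ l : ℝ, 0 ≤ l → ∃ k ≤ Fintype.card I.F, IsLMP ρ l (B k)) := by
  classical
  refine ⟨nearConvex_iff, lagrangianGap_iff, ?_, ?_, ?_, ?_⟩
  · intro I s1 s2 k1 k k2 h1 h2 h1k hk2 h12
    obtain ⟨s, hS, hk, hc⟩ := near_convex s1 s2 h1 h1k hk2 h12 h2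
    exact ⟨s, fun i hi => Finset.mem_union.1 (hS hi), hk, hc⟩
  · intro I ρ L k N s0 A hρ hN h0 hL hA
    obtain ⟨t, ht, s, hS, hk, hc⟩ := lmp_reduction hρ hN h0 hL hA
    exact ⟨t, ht, s, fun i hi => Finset.mem_union.1 (hS hi), hk, hc⟩
  · intro I ρ ε k N A hρ hε hk hpos hA hN
    obtain ⟨j, i, t, ht, s, hS, hsk, hc⟩ := lmp_poly hρ hε hk hpos hA hN
    exact ⟨j, i, t, ht, s, fun x hx => Finset.mem_union.1 (hS hx), hsk, hc⟩
  · intro I ρ B hρ hB l hl
    exact lmp_converse hρ hB hl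

end Pool.Agent.Helper82.CKM.MergingOld
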