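import Pool.Agent.Helper82.CKM.Forest

/-!
# Rotations

A bipartite graph that is not sparse carries a nonzero integer vector with values in `{-1, 0, 1}`
and zero sums at all vertices.
-/

set_option autoImplicit false

namespace Pool.Agent.Helper82.CKM

open Classical in
private lemma card_fst {α β : Type} [Fintype α] [Fintype β] (E : Finset (α × β)) (S : Finset α)
    (hS : ∀ x ∈ E, x.1 ∈ S) :
    E.card = ∑ a ∈ S, (Finset.univ.filter fun b => (a, b) ∈ E).card := by
  rw [Finset.card_eq_sum_card_fiberwise (f := Prod.fst) (t := S) (fun x hx => hS x hx)]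
  refine Finset.sum_congr rfl fun a _ => ?_
  refine Finset.card_bij' (fun x _ => x.2) (fun b _ => (a, b)) ?_ ?_ ?_ ?_
  · intro x hx
    rw [Finset.mem_filter] at hx ⊢
    refine ⟨Finset.mem_univ _, ?_⟩
    rw [← hx.2]
    exact hx.1
  · intro b hb
    rw [Finset.mem_filter] at hb ⊢
    exact ⟨hb.2, rfl⟩
  · intro x hx
    rw [Finset.mem_filter] at hx
    rw [← hx.2]
  · intro b hb
    rfl

open Classical in
private lemma card_snd {α β : Type} [Fintype α] [Fintype β] (E : Finset (α × β)) (S : Finset β)
    (hS : ∀ x ∈ E, x.2 ∈ S) :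
    E.card = ∑ b ∈ S, (Finset.univ.filter fun a => (a, b) ∈ E).card := by
  rw [Finset.card_eq_sum_card_fiberwise (f := Prod.snd) (t := S) (fun x hx => hS x hx)]
  refine Finset.sum_congr rfl fun b _ => ?_
  refine Finset.card_bij' (fun x _ => x.1) (fun a _ => (a, b)) ?_ ?_ ?_ ?_
  · intro x hx
    rw [Finset.mem_filter] at hx ⊢
    refine ⟨Finset.mem_univ _, ?_⟩
    rw [← hx.2]
    exact hx.1
  · intro b hb
    rw [Finset.mem_filter] at hb ⊢
    exact ⟨hb.2, rfl⟩
  · intro x hx
    rw [Finset.mem_filter] at hx
    rw [← hx.2]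
  · intro b hb
    rfl

open Classical in
/-- rotations -/
theorem exists_rot {α β : Type} [Fintype α] [Fintype β] {E : Finset (α × β)} (h : ¬ Sparse E) :
    ∃ ψ : α → β → ℤ, (∃ a b, ψ a b ≠ 0) ∧ (∀ a b, ψ a b ≠ 0 → (a, b) ∈ E) ∧
      (∀ a b, |ψ a b| ≤ 1) ∧ (∀ a, ∑ b, ψ a b = 0) ∧ (∀ b, ∑ a, ψ a b = 0) := by
  unfold Sparse at h
  push Not at h
  have hex : ∃ n, ∃ E' ⊆ E, E'.Nonempty ∧
      (E'.image Prod.fst).card + (E'.image Prod.snd).card ≤ E'.card ∧ E'.card = n := by
    obtain ⟨E', h1, h2, h3⟩ := h
    exact ⟨_, E', h1, h2, h3, rfl⟩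
  obtain ⟨E', hE', hne, hle, hcard⟩ := Nat.find_spec hex
  have hmin : ∀ E'' ⊆ E, E''.Nonempty → E''.card < E'.card →
      E''.card < (E''.image Prod.fst).card + (E''.image Prod.snd).card := by
    intro E'' h1 h2 h3
    by_contra h4
    exact Nat.find_min hex (by rw [← hcard]; exact h3) ⟨E'', h1, h2, by omega, rfl⟩
  set A := E'.image Prod.fst with hA
  set B := E'.image Prod.snd with hB
  have hA1 : 1 ≤ A.card := Finset.card_pos.2 (hne.image _)
  have hB1 : 1 ≤ B.card := Finset.card_pos.2 (hne.image _)
  have herase : ∀ x ∈ E', (E'.erase x).Nonempty := by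
    intro x hx
    rw [← Finset.card_pos, Finset.card_erase_of_mem hx]
    omega
  have hub : E'.card ≤ A.card + B.card := by
    obtain ⟨x, hx⟩ := hne
    have h1 := hmin (E'.erase x) ((Finset.erase_subset _ _).trans hE') (herase x hx)
      (Finset.card_erase_lt_of_mem hx)
    have h2 : ((E'.erase x).image Prod.fst).card ≤ A.card :=
      Finset.card_le_card (Finset.image_subset_image (Finset.erase_subset x E'))
    have h3 : ((E'.erase x).image Prod.snd).card ≤ B.card :=
      Finset.card_le_card (Finset.image_subset_image (Finset.erase_subset x E'))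
    rw [Finset.card_erase_of_mem hx] at h1
    omega
  have hdegA : ∀ a ∈ A, 2 ≤ (Finset.univ.filter fun b => (a, b) ∈ E').card := by
    intro a ha
    obtain ⟨x, hx, hxa⟩ := Finset.mem_image.1 ha
    by_contra hlt
    have hle1 : (Finset.univ.filter fun b => (a, b) ∈ E').card ≤ 1 := by omega
    rw [Finset.card_le_one] at hle1
    have h1 := hmin (E'.erase x) ((Finset.erase_subset _ _).trans hE') (herase x hx)
      (Finset.card_erase_lt_of_mem hx)
    have h2 : (E'.erase x).image Prod.fst ⊆ A.erase a := by
      intro a' ha'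
      obtain ⟨y, hy, rfl⟩ := Finset.mem_image.1 ha'
      rw [Finset.mem_erase] at hy ⊢
      refine ⟨?_, Finset.mem_image_of_mem _ hy.2⟩
      intro hya
      apply hy.1
      refine Prod.ext (hya.trans hxa.symm) ?_
      refine hle1 _ (Finset.mem_filter.2 ⟨Finset.mem_univ _, ?_⟩) _
        (Finset.mem_filter.2 ⟨Finset.mem_univ _, ?_⟩)
      · rw [← hya]; exact hy.2
      · rw [← hxa]; exact hx
    have h3 := Finset.card_le_card h2
    rw [Finset.card_erase_of_mem ha] at h3
    have h4 : ((E'.erase x).image Prod.snd).card ≤ B.card :=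
      Finset.card_le_card (Finset.image_subset_image (Finset.erase_subset x E'))
    rw [Finset.card_erase_of_mem hx] at h1
    omega
  have hdegB : ∀ b ∈ B, 2 ≤ (Finset.univ.filter fun a => (a, b) ∈ E').card := by
    intro b hb
    obtain ⟨x, hx, hxb⟩ := Finset.mem_image.1 hb
    by_contra hlt
    have hle1 : (Finset.univ.filter fun a => (a, b) ∈ E').card ≤ 1 := by omega
    rw [Finset.card_le_one] at hle1
    have h1 := hmin (E'.erase x) ((Finset.erase_subset _ _).trans hE') (herase x hx)
      (Finset.card_erase_lt_of_mem hx)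
    have h2 : (E'.erase x).image Prod.snd ⊆ B.erase b := by
      intro b' hb'
      obtain ⟨y, hy, rfl⟩ := Finset.mem_image.1 hb'
      rw [Finset.mem_erase] at hy ⊢
      refine ⟨?_, Finset.mem_image_of_mem _ hy.2⟩
      intro hyb
      apply hy.1
      refine Prod.ext ?_ (hyb.trans hxb.symm)
      refine hle1 _ (Finset.mem_filter.2 ⟨Finset.mem_univ _, ?_⟩) _
        (Finset.mem_filter.2 ⟨Finset.mem_univ _, ?_⟩)
      · rw [← hyb]; exact hy.2
      · rw [← hxb]; exact hx
    have h3 := Finset.card_le_card h2
    rw [Finset.card_erase_of_mem hb] at h3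
    have h4 : ((E'.erase x).image Prod.fst).card ≤ A.card :=
      Finset.card_le_card (Finset.image_subset_image (Finset.erase_subset x E'))
    rw [Finset.card_erase_of_mem hx] at h1
    omega
  have hsA := card_fst E' A fun x hx => Finset.mem_image_of_mem _ hx
  have hsB := card_snd E' B fun x hx => Finset.mem_image_of_mem _ hx
  have h2A : A.card * 2 ≤ E'.card := by
    rw [hsA, ← smul_eq_mul, ← Finset.sum_const]
    exact Finset.sum_le_sum hdegA
  have h2B : B.card * 2 ≤ E'.card := by
    rw [hsB, ← smul_eq_mul, ← Finset.sum_const]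
    exact Finset.sum_le_sum hdegB
  have hAB : A.card = B.card := by omega
  have hEA : E'.card = A.card * 2 := by omega
  have hdA : ∀ a ∈ A, (Finset.univ.filter fun b => (a, b) ∈ E').card = 2 := by
    have h1 : ∑ a ∈ A, 2 = ∑ a ∈ A, (Finset.univ.filter fun b => (a, b) ∈ E').card := by
      rw [← hsA, hEA, Finset.sum_const, smul_eq_mul]
    have h2 := (Finset.sum_eq_sum_iff_of_le hdegA).1 h1
    exact fun a ha => (h2 a ha).symm
  have hdB : ∀ b ∈ B, (Finset.univ.filter fun a => (a, b) ∈ E').card = 2 := by
    have h1 : ∑ b ∈ B, 2 = ∑ b ∈ B, (Finset.univ.filter fun a => (a, b) ∈ E').card := by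
      rw [← hsB, hEA, hAB, Finset.sum_const, smul_eq_mul]
    have h2 := (Finset.sum_eq_sum_iff_of_le hdegB).1 h1
    exact fun b hb => (h2 b hb).symm
  -- the matching
  obtain ⟨f, hf1, hf2⟩ := (Finset.all_card_le_biUnion_card_iff_exists_injective
    (fun a : A => Finset.univ.filter fun b => (a.1, b) ∈ E')).1 (by
      intro s
      set N := s.biUnion fun a : A => Finset.univ.filter fun b => (a.1, b) ∈ E' with hN
      set Fs : Finset (α × β) := E'.filter fun x => x.1 ∈ s.map (Function.Embedding.subtype _)
        with hFs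
      have h1 : Fs.card = s.card * 2 := by
        rw [card_fst Fs (s.map (Function.Embedding.subtype _))
          fun x hx => (Finset.mem_filter.1 hx).2]
        rw [Finset.sum_map, ← smul_eq_mul, ← Finset.sum_const]
        refine Finset.sum_congr rfl fun a ha => ?_
        rw [← hdA a.1 a.2]
        congr 1
        ext b
        simp only [Finset.mem_filter, Finset.mem_univ, true_and, hFs, Finset.mem_map,
          Function.Embedding.coe_subtype]
        exact ⟨fun h => h.1, fun h => ⟨h, a, ha, rfl⟩⟩
      have h2 : Fs.card ≤ N.card * 2 := by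
        have h3 : Fs.card = ∑ b ∈ N, (Finset.univ.filter fun a => (a, b) ∈ Fs).card := by
          refine card_snd Fs N fun x hx => ?_
          rw [hFs, Finset.mem_filter, Finset.mem_map] at hx
          obtain ⟨hx1, a, ha, hax⟩ := hx
          rw [hN, Finset.mem_biUnion]
          refine ⟨a, ha, Finset.mem_filter.2 ⟨Finset.mem_univ _, ?_⟩⟩
          have : a.1 = x.1 := hax
          rw [this]
          exact hx1
        rw [h3, ← smul_eq_mul, ← Finset.sum_const]
        refine Finset.sum_le_sum fun b hb => ?_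
        have hbB : b ∈ B := by
          rw [hN, Finset.mem_biUnion] at hb
          obtain ⟨a, _, hab⟩ := hb
          exact Finset.mem_image.2 ⟨_, (Finset.mem_filter.1 hab).2, rfl⟩
        rw [← hdB b hbB]
        refine Finset.card_le_card fun a ha => ?_
        rw [Finset.mem_filter] at ha ⊢
        exact ⟨ha.1, (Finset.mem_filter.1 ha.2).1⟩
      omega)
  have hfE : ∀ a : A, (a.1, f a) ∈ E' := fun a => (Finset.mem_filter.1 (hf2 a)).2
  have hfB : ∀ a : A, f a ∈ B := fun a => Finset.mem_image.2 ⟨_, hfE a, rfl⟩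
  have hsurj : ∀ b ∈ B, ∃ a : A, f a = b := by
    have h1 : (Finset.univ.image f) = B := by
      refine Finset.eq_of_subset_of_card_le ?_ ?_
      · intro b hb
        obtain ⟨a, _, rfl⟩ := Finset.mem_image.1 hb
        exact hfB a
      · rw [Finset.card_image_of_injective _ hf1, Finset.card_univ, Fintype.card_coe, hAB]
    intro b hb
    rw [← h1] at hb
    obtain ⟨a, _, rfl⟩ := Finset.mem_image.1 hb
    exact ⟨a, rfl⟩
  -- the vector
  set ψ : α → β → ℤ := fun a b =>
    (if (a, b) ∈ E' then -1 else 0) + (if ∃ x : A, x.1 = a ∧ f x = b then 2 else 0) with hψ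
  have hM : ∀ a b, (∃ x : A, x.1 = a ∧ f x = b) → (a, b) ∈ E' := by
    rintro a b ⟨x, rfl, rfl⟩
    exact hfE x
  refine ⟨ψ, ?_, ?_, ?_, ?_, ?_⟩
  · obtain ⟨x, hx⟩ := hne
    refine ⟨x.1, x.2, ?_⟩
    have hx' : (x.1, x.2) ∈ E' := hx
    simp only [hψ]
    rw [if_pos hx']
    split_ifs <;> norm_num
  · intro a b hab
    by_contra hc
    have hc' : (a, b) ∉ E' := fun h => hc (hE' h)
    apply hab
    simp only [hψ]
    rw [if_neg hc', if_neg fun h => hc' (hM a b h), add_zero]
  · intro a b
    simp only [hψ]
    by_cases hc : (a, b) ∈ E'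
    · rw [if_pos hc]
      split_ifs <;> norm_num
    · rw [if_neg hc, if_neg fun h => hc (hM a b h)]
      norm_num
  · intro a
    simp only [hψ]
    rw [Finset.sum_add_distrib, ← Finset.sum_filter, ← Finset.sum_filter, Finset.sum_const,
      Finset.sum_const]
    by_cases ha : a ∈ A
    · have h1 : (Finset.univ.filter fun b => ∃ x : A, x.1 = a ∧ f x = b) = {f ⟨a, ha⟩} := by
        ext b
        simp only [Finset.mem_filter, Finset.mem_univ, true_and, Finset.mem_singleton]
        constructor
        · rintro ⟨x, rfl, rfl⟩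
          rfl
        · rintro rfl
          exact ⟨⟨a, ha⟩, rfl, rfl⟩
      rw [hdA a ha, h1, Finset.card_singleton]
      norm_num
    · have h1 : (Finset.univ.filter fun b => (a, b) ∈ E') = ∅ := by
        ext b
        simp only [Finset.mem_filter, Finset.mem_univ, true_and, Finset.notMem_empty, iff_false]
        exact fun h => ha (Finset.mem_image.2 ⟨_, h, rfl⟩)
      have h2 : (Finset.univ.filter fun b => ∃ x : A, x.1 = a ∧ f x = b) = ∅ := by
        ext b
        simp only [Finset.mem_filter, Finset.mem_univ, true_and, Finset.notMem_empty, iff_false]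
        rintro ⟨x, rfl, _⟩
        exact ha x.2
      rw [h1, h2]
      simp
  · intro b
    simp only [hψ]
    rw [Finset.sum_add_distrib, ← Finset.sum_filter, ← Finset.sum_filter, Finset.sum_const,
      Finset.sum_const]
    by_cases hb : b ∈ B
    · obtain ⟨x0, hx0⟩ := hsurj b hb
      have h1 : (Finset.univ.filter fun a => ∃ x : A, x.1 = a ∧ f x = b) = {x0.1} := by
        ext a
        simp only [Finset.mem_filter, Finset.mem_univ, true_and, Finset.mem_singleton]
        constructor
        · rintro ⟨x, rfl, hx⟩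
          rw [hf1 (hx.trans hx0.symm)]
        · rintro rfl
          exact ⟨x0, rfl, hx0⟩
      rw [hdB b hb, h1, Finset.card_singleton]
      norm_num
    · have h1 : (Finset.univ.filter fun a => (a, b) ∈ E') = ∅ := by
        ext a
        simp only [Finset.mem_filter, Finset.mem_univ, true_and, Finset.notMem_empty, iff_false]
        exact fun h => hb (Finset.mem_image.2 ⟨_, h, rfl⟩)
      have h2 : (Finset.univ.filter fun a => ∃ x : A, x.1 = a ∧ f x = b) = ∅ := by
        ext a
        simp only [Finset.mem_filter, Finset.mem_univ, true_and, Finset.notMem_empty, iff_false]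
        rintro ⟨x, rfl, rfl⟩
        exact hb (hfB x)
      rw [h1, h2]
      simp

end Pool.Agent.Helper82.CKM
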