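import Pool.Agent.Helper82.CKM.Lagr

/-!
# The factor two is optimal
-/

set_option autoImplicit false

namespace Pool.Agent.Helper82.CKM

/-- the label of a point: the hub is `none` -/
def lab (K : ℕ) : Option (Fin (K + 1)) ⊕ Fin (K + 1) → Option (Fin (K + 1))
  | Sum.inl x => x
  | Sum.inr j => some j

/-- the distance from the hub -/
def wt {K : ℕ} : Option (Fin (K + 1)) → ℝ
  | none => 0
  | some _ => 1

lemma wt_nonneg {K : ℕ} (x : Option (Fin (K + 1))) : 0 ≤ wt x := by
  cases x <;> simp [wt]

/-- the distance in the star -/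
noncomputable def sd {K : ℕ} (x y : Option (Fin (K + 1))) : ℝ := if x = y then 0 else wt x + wt y

/-- The instance: a hub and `K + 1` pairs of a facility and a client at distance one from the
hub. -/
noncomputable def star (K : ℕ) : Inst where
  F := Option (Fin (K + 1))
  D := Fin (K + 1)
  fF := inferInstance
  fD := inferInstance
  d := fun x y => sd (lab K x) (lab K y)
  nonneg := by
    intro x y
    unfold sd
    split_ifs
    · exact le_refl _
    · exact add_nonneg (wt_nonneg _) (wt_nonneg _)
  self := by
    intro x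
    simp [sd]
  symm := by
    intro x y
    unfold sd
    by_cases h : lab K x = lab K y
    · rw [if_pos h, if_pos h.symm]
    · rw [if_neg h, if_neg (fun h' => h h'.symm), add_comm]
  tri := by
    intro x y z
    generalize lab K x = a
    generalize lab K y = b
    generalize lab K z = c
    have h1 := wt_nonneg a
    have h2 := wt_nonneg b
    have h3 := wt_nonneg c
    unfold sd
    by_cases hab : a = b
    · subst hab
      rw [if_pos rfl, zero_add]
    · by_cases hbc : b = c
      · subst hbc
        rw [if_pos (rfl : b = b), add_zero]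
      · rw [if_neg hab, if_neg hbc]
        split_ifs <;> linarith
  U := fun _ => K + 1

/-- open the hub only -/
noncomputable def hubSol (K : ℕ) : Sol (star K) where
  S := {(none : Option (Fin (K + 1)))}
  σ := fun _ => (none : Option (Fin (K + 1)))
  mem := fun _ => Finset.mem_singleton_self _
  cap := by
    intro i _
    refine (Finset.card_le_univ _).trans ?_
    change Fintype.card (Fin (K + 1)) ≤ K + 1
    rw [Fintype.card_fin]

/-- open all the other facilities -/
noncomputable def locSol (K : ℕ) : Sol (star K) where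
  S := (Finset.univ : Finset (Fin (K + 1))).map Function.Embedding.some
  σ := fun j => (some j : Option (Fin (K + 1)))
  mem := fun j => Finset.mem_map.2 ⟨j, Finset.mem_univ _, rfl⟩
  cap := by
    intro i _
    refine (Finset.card_le_univ _).trans ?_
    change Fintype.card (Fin (K + 1)) ≤ K + 1
    rw [Fintype.card_fin]

lemma hubSol_size (K : ℕ) : (hubSol K).size = 1 := Finset.card_singleton _

lemma locSol_size (K : ℕ) : (locSol K).size = K + 1 := by
  change ((Finset.univ : Finset (Fin (K + 1))).map Function.Embedding.some).card = K + 1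
  rw [Finset.card_map, Finset.card_univ, Fintype.card_fin]

lemma hubSol_cost (K : ℕ) : (hubSol K).cost = K + 1 := by
  change ∑ j : Fin (K + 1), sd (some j) (none : Option (Fin (K + 1))) = K + 1
  have : ∀ j : Fin (K + 1), sd (some j) (none : Option (Fin (K + 1))) = 1 := by
    intro j
    simp [sd, wt]
  rw [Finset.sum_congr rfl fun j _ => this j]
  simp

lemma locSol_cost (K : ℕ) : (locSol K).cost = 0 := by
  change ∑ j : Fin (K + 1), sd (some j) (some j) = 0
  refine Finset.sum_eq_zero fun j _ => ?_
  simp [sd]

lemma cost_ge (K : ℕ) (s : Sol (star K)) (hs : s.size ≤ K) : 2 ≤ s.cost := by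
  classical
  have hcost : s.cost = ∑ j : Fin (K + 1), sd (some j) (s.σ j) := rfl
  have hterm : ∀ j : Fin (K + 1), 0 ≤ sd (some j) (s.σ j) := by
    intro j
    unfold sd
    split_ifs
    · exact le_refl _
    · exact add_nonneg (wt_nonneg _) (wt_nonneg _)
  set T : Finset (Fin (K + 1)) :=
    Finset.univ.filter fun j => (some j : Option (Fin (K + 1))) ∉ (s.S : Finset (Option (Fin (K + 1))))
    with hT
  -- the clients in `T` pay
  have hpay : ∀ j ∈ T, (some j : Option (Fin (K + 1))) ≠ s.σ j := by
    intro j hj h
    apply (Finset.mem_filter.1 hj).2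
    rw [h]
    exact s.mem j
  have hsum : ∑ j ∈ T, sd (some j) (s.σ j) ≤ s.cost := by
    rw [hcost]
    exact Finset.sum_le_sum_of_subset_of_nonneg (Finset.subset_univ _) (fun j _ _ => hterm j)
  have hsize : (s.S : Finset (Option (Fin (K + 1)))).card ≤ K := hs
  have hcount : K + 1 ≤ T.card +
      ((s.S : Finset (Option (Fin (K + 1)))).erase none).card := by
    have h1 : T.card + (Finset.univ.filter fun j : Fin (K + 1) =>
        ¬ ((some j : Option (Fin (K + 1))) ∉ (s.S : Finset (Option (Fin (K + 1)))))).card = K + 1 := by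
      rw [hT, Finset.card_filter_add_card_filter_not, Finset.card_univ, Fintype.card_fin]
    have h2 : (Finset.univ.filter fun j : Fin (K + 1) =>
        ¬ ((some j : Option (Fin (K + 1))) ∉ (s.S : Finset (Option (Fin (K + 1)))))).card ≤
        ((s.S : Finset (Option (Fin (K + 1)))).erase none).card := by
      refine Finset.card_le_card_of_injOn (fun j => some j) ?_ ?_
      · intro j hj
        have h3 := (Finset.mem_filter.1 hj).2
        rw [not_not] at h3
        exact Finset.mem_erase.2 ⟨by simp, h3⟩
      · intro j _ j' _ h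
        exact Option.some_injective _ h
    omega
  by_cases hn : (none : Option (Fin (K + 1))) ∈ (s.S : Finset (Option (Fin (K + 1))))
  · have h1 : ((s.S : Finset (Option (Fin (K + 1)))).erase none).card =
        (s.S : Finset (Option (Fin (K + 1)))).card - 1 := Finset.card_erase_of_mem hn
    have h7 : 0 < (s.S : Finset (Option (Fin (K + 1)))).card := Finset.card_pos.2 ⟨_, hn⟩
    have h2 : 2 ≤ T.card := by omega
    have h3 : ∑ j ∈ T, (1 : ℝ) ≤ ∑ j ∈ T, sd (some j) (s.σ j) := by
      refine Finset.sum_le_sum fun j hj => ?_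
      unfold sd
      rw [if_neg (hpay j hj)]
      have := wt_nonneg (s.σ j)
      have h4 : wt (some j) = (1 : ℝ) := rfl
      linarith
    rw [Finset.sum_const, nsmul_eq_mul, mul_one] at h3
    have h5 : (2 : ℝ) ≤ T.card := by exact_mod_cast h2
    linarith
  · have h1 : ((s.S : Finset (Option (Fin (K + 1)))).erase none) = s.S :=
      Finset.erase_eq_of_notMem hn
    rw [h1] at hcount
    have h2 : 1 ≤ T.card := by omega
    have h3 : ∑ j ∈ T, (2 : ℝ) ≤ ∑ j ∈ T, sd (some j) (s.σ j) := by
      refine Finset.sum_le_sum fun j hj => ?_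
      unfold sd
      rw [if_neg (hpay j hj)]
      have h4 : wt (some j) = (1 : ℝ) := rfl
      have h5 : wt (s.σ j) = (1 : ℝ) := by
        have h6 := s.mem j
        generalize s.σ j = q at h6
        cases q with
        | none => exact absurd h6 hn
        | some q => rfl
      linarith
    rw [Finset.sum_const, nsmul_eq_mul] at h3
    have h5 : (1 : ℝ) ≤ T.card := by exact_mod_cast h2
    linarith

/-- a real number that is at least `2 K / (K + 1)` for all `K ≥ 1` is at least two -/
lemma two_le {C : ℝ} (h : ∀ K : ℕ, 1 ≤ K → 2 * (K : ℝ) ≤ C * (K + 1)) : 2 ≤ C := by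
  by_contra hlt
  push Not at hlt
  obtain ⟨K, hK⟩ := exists_nat_gt (2 / (2 - C))
  have hpos : 0 < 2 - C := by linarith
  have hK1 : 1 ≤ K := by
    by_contra h0
    have : K = 0 := by omega
    subst this
    have : 0 < 2 / (2 - C) := by positivity
    simp at hK
    linarith
  have h1 := h K hK1
  rw [div_lt_iff₀ hpos] at hK
  nlinarith

/-- **Near convexity holds with the factor `C` if and only if `C ≥ 2`.** -/
theorem nearConvex_iff (C : ℝ) : NearConvex C ↔ 2 ≤ C := by
  refine ⟨fun h => two_le fun K hK => ?_, nearConvex_of_le⟩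
  obtain ⟨s, hs, hc⟩ := h (star K) (hubSol K) (locSol K) 1 K (K + 1) (hubSol_size K).le
    (locSol_size K).le hK (Nat.le_succ K) (by omega)
  have h1 := cost_ge K s hs
  rw [hubSol_cost, locSol_cost] at hc
  push_cast at hc
  have h2 : (0 : ℝ) ≤ K := Nat.cast_nonneg K
  nlinarith

/-- **The Lagrangian gap is at most `C` if and only if `C ≥ 2`.** -/
theorem lagrangianGap_iff (C : ℝ) : LagrangianGap C ↔ 2 ≤ C := by
  refine ⟨fun h => two_le fun K hK => ?_, lagrangianGap_of_le⟩
  obtain ⟨l, hl, hs⟩ := h (star K) K 2 (cost_ge K)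
  have h1 := hs (hubSol K)
  have h2 := hs (locSol K)
  rw [hubSol_cost, hubSol_size] at h1
  rw [locSol_cost, locSol_size] at h2
  push_cast at h1 h2
  have h3 : (1 : ℝ) ≤ K := by exact_mod_cast hK
  have h4 : 2 ≤ C * l := by linarith
  have h5 : 2 * ((K : ℝ) - 1) ≤ C * l * ((K : ℝ) - 1) :=
    mul_le_mul_of_nonneg_right h4 (by linarith)
  linarith

end Pool.Agent.Helper82.CKM
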